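import Mathlib
import Pool.Agent.W608.Comb

set_option autoImplicit false

/-!
# Placing some of the points in a corner, with a full subcorner
-/

namespace Pool.Agent.W611

open Polynomial Pool.Agent.H932R2 Pool.Agent.H932R3 Pool.Agent.H932R7 Pool.Agent.W608

/-- Placing the points with multiplicities `w` in the corner `T`; all the monomials of a smaller
corner `T0` are used when the points impose `T0.card` conditions on it. -/
theorem comb2 {K : Type} [Field K] [Infinite K] {ι ι' : Type} [Fintype ι]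
    (w : ι → ℕ) (w' : ι' → ℕ) (M T T0 : Finset (ℕ × ℕ)) (p : ℕ) (hTM : T ⊆ M) (hT0T : T0 ⊆ T)
    (hα : Set.InjOn (fun x : ℕ × ℕ => p * x.1 + x.2) (↑M : Set (ℕ × ℕ)))
    (hup : ∀ x ∈ M, x ∉ T → ∀ y ∈ T, p * x.1 + x.2 < p * y.1 + y.2)
    (hup0 : ∀ x ∈ T, x ∉ T0 → ∀ y ∈ T0, p * x.1 + x.2 < p * y.1 + y.2)
    (h1 : ∃ J ∈ PF K w, RkI J (↑T : Set (ℕ × ℕ)) (Aw w) ∧ RkI J (↑T0 : Set (ℕ × ℕ)) T0.card)
    (N : ℕ)
    (h2 : ∀ R ⊆ T, T0 ⊆ R → R.card = Aw w →
      RkS (PF K w') ((↑M : Set (ℕ × ℕ)) \ (↑R : Set (ℕ × ℕ))) N) :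
    RkS (PF K (Sum.elim w w')) (↑M : Set (ℕ × ℕ)) (Aw w + N) := by
  classical
  obtain ⟨J, ⟨c, γ, rfl⟩, ⟨v, hv, hli⟩, ⟨v0, hv0, hli0⟩⟩ := h1
  obtain ⟨α, hαd⟩ : ∃ α : ℕ × ℕ → ℕ, α = fun x : ℕ × ℕ => p * x.1 + x.2 := ⟨_, rfl⟩
  have hαa : ∀ x, α x = p * x.1 + x.2 := fun x => by rw [hαd]
  rw [← hαd] at hα
  simp only [← hαa] at hup hup0
  obtain ⟨E, hE⟩ : ∃ E, E = condMapV 1 w c γ := ⟨_, rfl⟩
  have hfin : Module.finrank K ((Σ a : ι, EE 1 (w a)) → K) = Aw w := by
    rw [Module.finrank_fintype_fun_eq_card, Fintype.card_sigma, ← TRh.Aw_eq]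
    exact Finset.sum_congr rfl fun a _ => Fintype.card_coe _
  have hspan : Submodule.span K ((fun x => E (mon K x)) '' (↑T : Set (ℕ × ℕ))) = ⊤ := by
    have h3 : LinearIndependent K (fun i => E (v i)) := by
      rw [Fintype.linearIndependent_iff]
      intro b hb
      apply hli b
      rw [mem_vIdeal_iff, map_sum, ← hE, ← hb]
      exact Finset.sum_congr rfl fun i _ => map_smul _ _ _
    have h4 := LinearIndependent.span_eq_top_of_card_eq_finrank' h3
      (by rw [hfin, Fintype.card_fin])
    rw [eq_top_iff, ← h4, Submodule.span_le]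
    rintro _ ⟨i, rfl⟩
    have h5 := Submodule.mem_map_of_mem (f := E) (hv i)
    unfold mspan at h5
    rw [Submodule.map_span, ← Set.image_comp] at h5
    exact h5
  -- the monomials of the small corner are independent
  have hind0 : LinearIndepOn K (fun x => E (mon K x)) (↑T0 : Set (ℕ × ℕ)) := by
    have h3 : LinearIndependent K (fun i => E (v0 i)) := by
      rw [Fintype.linearIndependent_iff]
      intro b hb
      apply hli0 b
      rw [mem_vIdeal_iff, map_sum, ← hE, ← hb]
      exact Finset.sum_congr rfl fun i _ => map_smul _ _ _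
    have h4 : Submodule.span K (Set.range fun i => E (v0 i)) ≤
        Submodule.span K (Set.range fun x : (↑T0 : Set (ℕ × ℕ)) => E (mon K x)) := by
      rw [Submodule.span_le]
      rintro _ ⟨i, rfl⟩
      have h5 := Submodule.mem_map_of_mem (f := E) (hv0 i)
      unfold mspan at h5
      rw [Submodule.map_span, ← Set.image_comp, Set.image_eq_range] at h5
      exact h5
    have h5 := Submodule.finrank_mono h4
    rw [finrank_span_eq_card h3, Fintype.card_fin] at h5
    have h6 : LinearIndependent K (fun x : (↑T0 : Set (ℕ × ℕ)) => E (mon K x)) := by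
      rw [linearIndependent_iff_card_le_finrank_span, Set.finrank]
      simpa using h5
    exact h6
  obtain ⟨R, hRT, hRc, hRtop, hRs⟩ := exists_basis_set (fun x => E (mon K x)) T hspan α
    (hα.mono (by exact_mod_cast hTM))
  rw [hfin] at hRc
  have hT0R : T0 ⊆ R := by
    intro x hx
    by_contra hxR
    have h3 := hRs x (hT0T hx) hxR
    have h4 : (↑(R.filter fun r => α x < α r) : Set (ℕ × ℕ)) ⊆ (↑T0 : Set (ℕ × ℕ)) \ {x} := by
      intro r hr
      rw [Finset.mem_coe, Finset.mem_filter] at hr
      refine ⟨?_, ?_⟩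
      · by_contra hr0
        have h5 := hup0 r (hRT hr.1) hr0 x hx
        omega
      · intro h5
        rw [Set.mem_singleton_iff] at h5
        rw [h5] at hr
        omega
    have h5 := hind0.notMem_span (i := x) (by exact_mod_cast hx)
    exact h5 (Submodule.span_mono (Set.image_mono h4) h3)
  have hRs' : ∀ x ∈ M, x ∉ R → E (mon K x) ∈ Submodule.span K
      ((fun x => E (mon K x)) '' (↑(R.filter fun r => α x < α r) : Set (ℕ × ℕ))) := by
    intro x hx hxR
    by_cases hxT : x ∈ T
    · exact hRs x hxT hxR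
    · have h3 : R.filter (fun r => α x < α r) = R := by
        rw [Finset.filter_true_of_mem]
        intro r hr
        exact hup x hx hxT r (hRT hr)
      rw [h3, hRtop]
      trivial
  obtain ⟨P, hP⟩ : ∃ P : Submodule K K[X][X], P = mspan K (↑M : Set (ℕ × ℕ)) ⊓
    Submodule.restrictScalars K (vIdeal 1 w c γ) := ⟨_, rfl⟩
  obtain ⟨B, hB⟩ : ∃ B, B = M.sup α := ⟨_, rfl⟩
  obtain ⟨J', ⟨c', γ', rfl⟩, u, hu, hli'⟩ := transferP (𝓘 := PF K w') (P := P)
    (M' := (↑M : Set (ℕ × ℕ)) \ (↑R : Set (ℕ × ℕ))) (n := N) B (scal p)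
    (fun t ht J hJ => PF_scal w' p t ht J hJ) (by
      rintro x ⟨hxM, hxR⟩
      have hxM' : x ∈ M := hxM
      have hxR' : x ∉ R := hxR
      have h3 := hRs' x hxM' hxR'
      rw [Submodule.mem_span_image_finset_iff_exists_fun'] at h3
      obtain ⟨b, hb⟩ := h3
      obtain ⟨S, hS⟩ : ∃ S, S = R.filter fun r => α x < α r := ⟨_, rfl⟩
      rw [← hS] at hb
      have hSlt : ∀ r ∈ S, α x < α r := fun r hr => by
        rw [hS] at hr
        exact (Finset.mem_filter.1 hr).2
      have hSM : ∀ r ∈ S, r ∈ M := fun r hr => by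
        rw [hS] at hr
        exact hTM (hRT (Finset.mem_filter.1 hr).1)
      obtain ⟨f, hf⟩ : ∃ f, f = mon K x - ∑ r ∈ S, b r • mon K r := ⟨_, rfl⟩
      have hfP : f ∈ P := by
        rw [hP, Submodule.mem_inf]
        constructor
        · rw [hf]
          refine Submodule.sub_mem _ (Submodule.subset_span ⟨x, hxM, rfl⟩)
            (Submodule.sum_mem _ fun r hr => Submodule.smul_mem _ _
              (Submodule.subset_span ⟨r, ?_, rfl⟩))
          exact_mod_cast hSM r hr
        · rw [Submodule.restrictScalars_mem, mem_vIdeal_iff, ← hE, hf, map_sub, map_sum, sub_eq_zero]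
          simp only [map_smul]
          exact hb.symm
      refine ⟨fun k => (if k = 0 then mon K x else 0) -
        ∑ r ∈ S, if α r - α x = k then b r • mon K r else 0, ?_, fun t ht => ?_⟩
      · beta_reduce
        rw [if_pos rfl, Finset.sum_eq_zero, sub_zero]
        intro r hr
        have := hSlt r hr
        rw [if_neg (by omega)]
      · refine Submodule.mem_map.2 ⟨(t ^ α x)⁻¹ • f, Submodule.smul_mem _ _ hfP, ?_⟩
        have hta : t ^ α x ≠ 0 := pow_ne_zero _ ht
        have h4 : (scal p t).toLinearMap f =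
            t ^ α x • mon K x - ∑ r ∈ S, (t ^ α r * b r) • mon K r := by
          rw [hf, map_sub, map_sum]
          congr 1
          · rw [AlgHom.toLinearMap_apply, scal_mon, hαa]
          · refine Finset.sum_congr rfl fun r hr => ?_
            rw [map_smul, AlgHom.toLinearMap_apply, scal_mon, smul_smul, mul_comm, hαa]
        rw [map_smul, h4, smul_sub, smul_smul, inv_mul_cancel₀ hta, one_smul, Finset.smul_sum]
        simp only [smul_sub, Finset.sum_sub_distrib]
        congr 1
        · simp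
        · simp only [Finset.smul_sum]
          rw [Finset.sum_comm]
          refine Finset.sum_congr rfl fun r hr => ?_
          have h5 := hSlt r hr
          have h6 : α r ≤ B := by
            rw [hB]
            exact Finset.le_sup (hSM r hr)
          rw [Finset.sum_eq_single (α r - α x)]
          · rw [if_pos rfl, smul_smul, smul_smul]
            congr 1
            have h7 : t ^ α r = t ^ α x * t ^ (α r - α x) := by
              rw [← pow_add]
              congr 1
              omega
            rw [h7]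
            field_simp
          · intro k _ hk
            rw [if_neg (Ne.symm hk), smul_zero]
          · intro hk
            exact absurd (Finset.mem_range.2 (by omega)) hk)
    (h2 R hRT hT0R hRc)
  have hsub1 : vIdeal 1 (Sum.elim w w') (Sum.elim c c') (Sum.elim γ γ') ≤ vIdeal 1 w c γ :=
    le_iInf fun a => iInf_le_of_le (Sum.inl a) le_rfl
  have hsub2 : vIdeal 1 (Sum.elim w w') (Sum.elim c c') (Sum.elim γ γ') ≤ vIdeal 1 w' c' γ' :=
    le_iInf fun a => iInf_le_of_le (Sum.inr a) le_rfl
  have huP : ∀ i, u i ∈ mspan K (↑M : Set (ℕ × ℕ)) ∧ u i ∈ vIdeal 1 w c γ := fun i => by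
    have h3 := hu i
    rw [hP, Submodule.mem_inf, Submodule.restrictScalars_mem] at h3
    exact h3
  refine ⟨_, ⟨Sum.elim c c', Sum.elim γ γ', rfl⟩, Fin.append v u, fun i => ?_, fun b hb => ?_⟩
  · refine Fin.addCases (fun j => ?_) (fun j => ?_) i
    · rw [Fin.append_left]
      exact mspan_mono (by exact_mod_cast hTM) (hv j)
    · rw [Fin.append_right]
      exact (huP j).1
  · rw [Fin.sum_univ_add] at hb
    simp only [Fin.append_left, Fin.append_right] at hb
    have h3 : ∑ j, b (Fin.natAdd (Aw w) j) • u j ∈ vIdeal 1 w c γ :=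
      Submodule.sum_mem _ fun j _ => Submodule.smul_of_tower_mem _ _ (huP j).2
    have h4 : ∑ j, b (Fin.castAdd N j) • v j ∈ vIdeal 1 w c γ := by
      have := Ideal.sub_mem _ (hsub1 hb) h3
      rwa [add_sub_cancel_right] at this
    have h5 := hli _ h4
    have h6 : ∑ j, b (Fin.castAdd N j) • v j = 0 :=
      Finset.sum_eq_zero fun j _ => by rw [h5 j, zero_smul]
    rw [h6, zero_add] at hb
    have h7 := hli' _ (hsub2 hb)
    intro i
    exact Fin.addCases (fun j => h5 j) (fun j => h7 j) i

end Pool.Agent.W611
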