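import Mathlib
import Pool.Agent.W608.Rank3
import Pool.Agent.W611.Heal2

set_option autoImplicit false

/-!
# From the degree `d` monomials minus a part of a corner, unknown in one strip only
-/

namespace Pool.Agent.W611

open Polynomial Pool.Agent.H932R2 Pool.Agent.H932R3 Pool.Agent.H932R7 Pool.Agent.W608

theorem cnt_corner (δ d u : ℕ) :
    cnt δ (d + 1 - δ * u) + (Corner d (δ * (u + 1))).card = (Corner d (δ * u)).card := by
  classical
  have h1 : (Corner d (δ * u)).filter (fun p => δ * (u + 1) ≤ p.1) = Corner d (δ * (u + 1)) := by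
    ext ⟨i, l⟩
    rw [Finset.mem_filter, mem_Corner, mem_Corner]
    have : δ * u ≤ δ * (u + 1) := Nat.mul_le_mul_left _ (by omega)
    simp only
    omega
  have h2 := Finset.card_filter_add_card_filter_not (s := Corner d (δ * u))
    (fun p => δ * (u + 1) ≤ p.1)
  rw [h1] at h2
  have h3 : ((Corner d (δ * u)).filter (fun p => ¬ δ * (u + 1) ≤ p.1)).card =
      cnt δ (d + 1 - δ * u) := by
    have h4 : cnt δ (d + 1 - δ * u) = (rowsF δ fun b => d + 1 - δ * u - b).card := by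
      rw [card_rowsF]
      rfl
    rw [h4]
    refine Finset.card_bij' (fun p _ => (p.2, p.1 - δ * u)) (fun p _ => (δ * u + p.2, p.1))
      ?_ ?_ ?_ ?_
    · rintro ⟨i, l⟩ hp
      rw [Finset.mem_filter, mem_Corner] at hp
      have e : δ * (u + 1) = δ * u + δ := by ring
      rw [mem_rowsF]
      simp only at hp ⊢
      omega
    · rintro ⟨i, l⟩ hp
      rw [mem_rowsF] at hp
      have e : δ * (u + 1) = δ * u + δ := by ring
      rw [Finset.mem_filter, mem_Corner]
      simp only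
      omega
    · rintro ⟨i, l⟩ hp
      rw [Finset.mem_filter, mem_Corner] at hp
      simp only
      rw [Prod.mk.injEq]
      exact ⟨by omega, rfl⟩
    · rintro ⟨i, l⟩ hp
      simp only
      rw [Prod.mk.injEq]
      exact ⟨rfl, by omega⟩
  omega

theorem step_DR2 {δ d u b B : ℕ} {R : Finset (ℕ × ℕ)} (hδ : 0 < δ) (hd : d + 1 = δ * u + b)
    (hB : δ * d ≤ B) (hR0 : Corner d (δ * (u + 1)) ⊆ R) :
    DomX B (M1R δ d u R) (Phi (δ * δ) u (δ * δ * u + δ * b - cc δ)
      ((Corner d (δ * u)).card - R.card)) := by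
  classical
  refine domX_of_card fun i q hp => ?_
  rw [mem_Phi] at hp
  obtain ⟨A, hA, hM⟩ := exists_cols δ d q hδ
  have hbound : ∀ x ∈ A, x ≤ B := by
    intro x hx
    have h1 := hM x hx
    refine le_trans ?_ hB
    have h2 := Nat.div_add_mod x δ
    have h3 : δ * (x / δ + x % δ) ≤ δ * d := Nat.mul_le_mul_left _ (by omega)
    have h4 : x % δ ≤ δ * (x % δ) := Nat.le_mul_of_pos_left _ hδ
    rw [Nat.mul_add] at h3
    omega
  rcases hp with ⟨hq, hi⟩ | ⟨rfl, hi⟩
  · refine ⟨A, ?_, fun x hx => ⟨hbound x hx, mem_M1R.2 ⟨hM x hx, Or.inl hq⟩⟩⟩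
    obtain ⟨w, rfl⟩ := Nat.exists_eq_add_of_lt hq
    have h1 : d + 1 - δ * q = δ * (w + 1) + b := by
      rw [hd]
      have : δ * (q + w + 1) = δ * q + δ * (w + 1) := by ring
      omega
    rw [h1] at hA
    have h2 := cnt_add δ (δ * (w + 1) + b)
    have h3 : YY δ (δ * (w + 1) + b) = 0 := YY_zero (by nlinarith)
    have h4 : δ * (δ * (w + 1) + b) = δ * δ * (w + 1) + δ * b := by ring
    have h5 : δ * δ * (q + w + 1) = δ * δ * q + δ * δ * (w + 1) := by ring
    rw [h4, h3] at h2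
    rw [h5] at hi
    omega
  · refine ⟨A.filter fun x => ((δ * q + x % δ, x / δ) : ℕ × ℕ) ∉ R, ?_, fun x hx => ?_⟩
    · have h2 := Finset.card_filter_add_card_filter_not (s := A)
        (fun x => ((δ * q + x % δ, x / δ) : ℕ × ℕ) ∈ R)
      have h3 : (A.filter fun x => ((δ * q + x % δ, x / δ) : ℕ × ℕ) ∈ R).card ≤
          (R \ Corner d (δ * (q + 1))).card := by
        refine Finset.card_le_card_of_injOn (fun x => (δ * q + x % δ, x / δ))
          (fun x hx => ?_) ?_
        · rw [Finset.mem_coe, Finset.mem_filter] at hx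
          rw [Finset.mem_coe, Finset.mem_sdiff]
          refine ⟨hx.2, fun h4 => ?_⟩
          rw [mem_Corner] at h4
          have h5 := Nat.mod_lt x hδ
          have e : δ * (q + 1) = δ * q + δ := by ring
          omega
        · intro x _ y _ hxy
          simp only [Prod.mk.injEq] at hxy
          have h4 := Nat.div_add_mod x δ
          have h5 := Nat.div_add_mod y δ
          rw [hxy.2] at h4
          omega
      have h4 := Finset.card_sdiff_of_subset hR0
      have h5 := Finset.card_le_card hR0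
      have h6 := cnt_corner δ d q
      omega
    · rw [Finset.mem_filter] at hx
      exact ⟨hbound x hx.1, mem_M1R.2 ⟨hM x hx.1, Or.inr ⟨rfl, hx.2⟩⟩⟩

variable {K : Type*} [Field K] [Infinite K] {𝓘 : Set (Ideal K[X][X])} {n : ℕ}

theorem start_phi2 (h𝓘 : Stable 𝓘) {δ d u b B : ℕ} {R : Finset (ℕ × ℕ)} (hδ : 0 < δ)
    (hd : d + 1 = δ * u + b) (hB : δ * d ≤ B)
    (hK : ∀ k : ℕ, 0 < k → k ≤ B → (k : K) ≠ 0) (hR : ∀ p ∈ R, δ * u ≤ p.1)
    (hR0 : Corner d (δ * (u + 1)) ⊆ R)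
    (h : RkS 𝓘 (Phi (δ * δ) u (δ * δ * u + δ * b - cc δ) ((Corner d (δ * u)).card - R.card)) n) :
    RkS 𝓘 (Tset d \ (↑R : Set (ℕ × ℕ))) n := by
  have hdB : d ≤ B := (Nat.le_mul_of_pos_left d hδ).trans hB
  exact RkS.compressY h𝓘 δ B hK (step_M1R hδ hdB hR)
    (RkS.compressX h𝓘 B hK (step_DR2 hδ hd hB hR0) h)

theorem card_Corner {d e b : ℕ} (h : d + 1 = e + b) :
    2 * (Corner d e).card = b * (b + 1) := by
  classical
  rcases Nat.eq_zero_or_pos b with hb | hb
  · subst hb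
    have : Corner d e = ∅ := by
      rw [Finset.eq_empty_iff_forall_notMem]
      rintro ⟨i, l⟩ hp
      rw [mem_Corner] at hp
      omega
    rw [this]
    rfl
  · obtain ⟨c, rfl⟩ : ∃ c, b = c + 1 := ⟨b - 1, by omega⟩
    have h1 : (Corner d e).card = (Tfin c).card := by
      refine Finset.card_bij' (fun p _ => (p.1 - e, p.2)) (fun p _ => (p.1 + e, p.2)) ?_ ?_ ?_ ?_
      · rintro ⟨i, l⟩ hp
        rw [mem_Corner] at hp
        have h2 : ((i - e, l) : ℕ × ℕ) ∈ (↑(Tfin c) : Set (ℕ × ℕ)) := by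
          rw [coe_Tfin, mem_Tset]
          omega
        exact h2
      · rintro ⟨i, l⟩ hp
        have h2 : ((i, l) : ℕ × ℕ) ∈ (↑(Tfin c) : Set (ℕ × ℕ)) := hp
        rw [coe_Tfin, mem_Tset] at h2
        rw [mem_Corner]
        simp only
        omega
      · rintro ⟨i, l⟩ hp
        rw [mem_Corner] at hp
        simp only
        rw [Prod.mk.injEq]
        exact ⟨by omega, rfl⟩
      · rintro ⟨i, l⟩ hp
        simp only
        rw [Prod.mk.injEq]
        exact ⟨by omega, rfl⟩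
    rw [h1, card_Tfin]

/-- From a balanced shape to the degree `d` monomials minus a part of a corner. -/
theorem start_heal2 (h𝓘 : Stable 𝓘) (hK : ∀ k : ℕ, 0 < k → (k : K) ≠ 0) {δ d u b : ℕ}
    {R : Finset (ℕ × ℕ)} (hδ : 1 ≤ δ) (hu : 1 ≤ u) (huδ : u ≤ δ * δ) (hd : d + 1 = δ * u + b)
    (hb : δ ≤ b) (hR : ∀ p ∈ R, δ * u ≤ p.1) (hR0 : Corner d (δ * (u + 1)) ⊆ R)
    (hX : 2 * R.card + 2 * (u + 1) ≤ b * (b + 1)) :
    ∃ κ t' j, t' < δ * δ + 2 * κ ∧ j ≤ u + 1 ∧
      sz (δ * δ + 2 * κ) u t' j + 2 * R.card = (d + 1) * (d + 2) ∧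
      (RkS 𝓘 (Lset (δ * δ + 2 * κ) ((δ * δ + 2 * κ) * u + t') j) n →
        RkS 𝓘 (Tset d \ (↑R : Set (ℕ × ℕ))) n) := by
  have hcc := cc_two δ
  have hbδ : δ * δ ≤ δ * b := Nat.mul_le_mul_left _ hb
  obtain ⟨t, htd⟩ : ∃ t, δ * b = t + cc δ := ⟨δ * b - cc δ, by omega⟩
  have hC := card_Corner hd
  obtain ⟨b', hb'⟩ : ∃ b', b = δ + b' := ⟨b - δ, by omega⟩
  have hC0 := card_Corner (d := d) (e := δ * (u + 1)) (b := b') (by
    rw [hd, hb']
    ring)
  have hRc := Finset.card_le_card hR0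
  obtain ⟨X, hXd⟩ : ∃ X, (Corner d (δ * u)).card = X + R.card :=
    ⟨(Corner d (δ * u)).card - R.card, by omega⟩
  obtain ⟨g, hg⟩ : ∃ g, R.card = (Corner d (δ * (u + 1))).card + g :=
    Nat.exists_eq_add_of_le hRc
  have hXg : X + g = t := by
    have e1 : b * (b + 1) = 2 * (δ * b) - δ * δ + δ + b' * (b' + 1) := by
      rw [hb']
      zify [show δ * δ ≤ 2 * (δ * (δ + b')) by nlinarith]
      ring
    omega
  obtain ⟨κ, t', j, h1, h2, h4, h5⟩ := heal2 (n := n) h𝓘 (δ * d + u) (fun k hk _ => hK k hk) u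
    hu (by omega) X (by omega) g (δ * δ) t huδ hXg
  refine ⟨κ, t', j, h1, h2, ?_, fun hRk => ?_⟩
  · rw [h4, show d + 2 = (d + 1) + 1 from rfl, hd]
    have e2 : 2 * X + 2 * R.card = b * (b + 1) := by omega
    zify at e2 hcc htd ⊢
    have ht' : (t : ℤ) = δ * b - cc δ := by linarith
    rw [ht']
    linear_combination e2 - (u : ℤ) * hcc
  · refine start_phi2 h𝓘 (by omega) hd (B := δ * d + u) (by omega) (fun k hk _ => hK k hk) hR
      hR0 ?_
    have e1 : δ * δ * u + δ * b - cc δ = δ * δ * u + t := by omega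
    have e2 : (Corner d (δ * u)).card - R.card = X := by omega
    rw [e1, e2]
    exact h5 hRk

end Pool.Agent.W611
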