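import Mathlib
import Pool.Agent.W611.Place2

set_option autoImplicit false

/-!
# Exact ranks near the critical degree, in degrees at least quadratic in the multiplicities
-/

namespace Pool.Agent.W611

open Polynomial Pool.Agent.H932R2 Pool.Agent.H932R3 Pool.Agent.H932R7 Pool.Agent.W608

theorem numA {m x c A W : ℕ} (hm : 0 < m) (hW : 3 * W + m = m * m * m)
    (hx : (m + 1) * (m + 1) + 1 ≤ x) (hc : x + m ≤ c)
    (hA : 2 * A ≤ (x + 1) * (x + 2) + 2 * W + 2 * (m * (m + 1))) :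
    2 * A + 2 * W + 2 * (m + 1) ≤ (c + 1) * (c + 2) := by
  have h1 : (x + m + 1) * (x + m + 2) ≤ (c + 1) * (c + 2) :=
    Nat.mul_le_mul (by omega) (by omega)
  have h2 : m * ((m + 1) * (m + 1) + 1) ≤ m * x := Nat.mul_le_mul_left _ hx
  have h3 : (x + m + 1) * (x + m + 2) = (x + 1) * (x + 2) + 2 * (m * x) + 3 * m + m * m := by ring
  have h4 : m * ((m + 1) * (m + 1) + 1) = m * m * m + 2 * (m * m) + 2 * m := by ring
  have h5 : m * (m + 1) = m * m + m := by ring
  have h6 : m ≤ m * m := Nat.le_mul_of_pos_left m hm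
  have h7 : m * m ≤ m * m * m := Nat.le_mul_of_pos_right _ hm
  omega

theorem numB {m x δ σ d q W : ℕ} (hm : 0 < m) (hW : 3 * W + m = m * m * m)
    (hx : (m + 1) * (m + 1) + 1 ≤ x) (hδ : σ + m ≤ δ) (hd : d = (m + 1) * δ + x)
    (hq : q ≤ m * (m + 1)) :
    (x + 1) * (x + 2) + 2 * W + m * (m + 1) + q + σ * (σ + 1) + m * (m + 1) * (m + 2) + 2 * q ≤
      (d + 1) * (d + 2) := by
  have h0 : (m + 1) * (σ + m) ≤ (m + 1) * δ := Nat.mul_le_mul_left _ hδ
  have h1 : x + σ + m * (m + 1) ≤ d := by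
    have : (m + 1) * (σ + m) = m * σ + σ + m * (m + 1) := by ring
    omega
  have h2 : (x + σ + m * (m + 1) + 1) * (x + σ + m * (m + 1) + 2) ≤ (d + 1) * (d + 2) :=
    Nat.mul_le_mul (by omega) (by omega)
  have h3 : (x + σ + m * (m + 1) + 1) * (x + σ + m * (m + 1) + 2) =
      (x + 1) * (x + 2) + σ * σ + 3 * σ + 2 * (σ * x) + 2 * (σ * (m * (m + 1))) +
        2 * (m * (m + 1) * x) + 3 * (m * (m + 1)) + (m * (m + 1)) * (m * (m + 1)) := by ring
  have h4 : σ * (σ + 1) = σ * σ + σ := by ring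
  have h5 : m * (m + 1) * ((m + 1) * (m + 1) + 1) ≤ m * (m + 1) * x := Nat.mul_le_mul_left _ hx
  have h6 : m * (m + 1) * ((m + 1) * (m + 1) + 1) = m * m * (m * m) + 3 * (m * m * m) +
      4 * (m * m) + 2 * m := by ring
  have h7 : m * (m + 1) * (m + 2) = m * m * m + 3 * (m * m) + 2 * m := by ring
  have h8 : m * (m + 1) = m * m + m := by ring
  have h9 : m * m * m ≤ m * m * (m * m) := by
    rw [← mul_assoc]
    exact Nat.le_mul_of_pos_right _ hm
  have h10 : m ≤ m * m := Nat.le_mul_of_pos_left m hm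
  have h11 : m * m ≤ m * m * m := Nat.le_mul_of_pos_right _ hm
  rw [h8] at hq
  omega

theorem big_x {m x : ℕ} (hm : 0 < m) (hx : (m + 1) * (m + 1) + 1 ≤ x) :
    Big m ((x + 1) * (x + 2)) := by
  unfold Big
  have hmR : (1 : ℝ) ≤ m := by exact_mod_cast hm
  have hxR : ((m : ℝ) + 1) * (m + 1) + 1 ≤ x := by exact_mod_cast hx
  have hs0 : 0 ≤ Real.sqrt (m : ℝ) := Real.sqrt_nonneg _
  have hss : Real.sqrt (m : ℝ) * Real.sqrt m = m := Real.mul_self_sqrt (by linarith)
  have hs : 2 * Real.sqrt (m : ℝ) ≤ m + 1 := by nlinarith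
  have h2 : (m : ℝ) + 6 * Real.sqrt m + 10 ≤ 4 * m + 13 := by linarith
  have h3 : (m : ℝ) * (m + 1) * (m + 6 * Real.sqrt m + 10) ≤ m * (m + 1) * (4 * m + 13) :=
    mul_le_mul_of_nonneg_left h2 (by positivity)
  have h5 : (((m : ℝ) + 1) * (m + 1) + 2) * ((m + 1) * (m + 1) + 3) ≤ (x + 1) * (x + 2) :=
    mul_le_mul (by linarith) (by linarith) (by positivity) (by linarith)
  have h6 : (m : ℝ) * (m + 1) * (4 * m + 13) ≤ ((m + 1) * (m + 1) + 2) * ((m + 1) * (m + 1) + 3) := by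
    obtain ⟨z, hz⟩ : ∃ z : ℝ, (m : ℝ) = z + 1 := ⟨m - 1, by ring⟩
    have hz0 : 0 ≤ z := by linarith
    rw [hz]
    have : 0 ≤ z * z * z * z := by positivity
    have : 0 ≤ z * z * z := by positivity
    have : 0 ≤ z * z := by positivity
    nlinarith
  push_cast
  linarith

theorem num_div {F q n : ℕ} (hq : 0 < q) (h : F ≤ n * q) :
    ∃ e, F ≤ e * q ∧ e * q < F + q ∧ e ≤ n := by
  refine ⟨(F + q - 1) / q, ?_, ?_, ?_⟩
  · have h2 : F + q - 1 < (F + q - 1) / q * q + q := Nat.lt_div_mul_add hq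
    omega
  · have h1 : (F + q - 1) / q * q ≤ F + q - 1 := Nat.div_mul_le_self _ _
    omega
  · have h1 : (F + q - 1) / q < n + 1 := by
      rw [Nat.div_lt_iff_lt_mul hq, Nat.add_mul, one_mul]
      omega
    omega

/-- Exact ranks near the critical degree. -/
theorem rankC (k₀ m : ℕ) (hk₀ : 0 < k₀) (hkm : k₀ ≤ m) (ι : Type) [Fintype ι] (w : ι → ℕ) (d : ℕ)
    (hd : (m + 1) * (Slg m w + 2 * m + 1) + 1 ≤ d)
    (htail : (∑ a, if w a < k₀ then w a * (w a + 1) else 0) ≤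
      ((m + 1) * (m + 1) + 2) * ((m + 1) * (m + 1) + 3))
    (hN1 : 2 * (d + 2).choose 2 < 2 * Aw w + k₀ * (k₀ + 1))
    (hN2 : 2 * Aw w < 2 * (d + 2).choose 2 + k₀ * (k₀ + 1))
    (hfr : m * (m + 1) * (m + 2) + k₀ * (k₀ + 1) ≤ Nat.card {a // w a = k₀} * (k₀ * (k₀ + 1))) :
    RkS (PF ℚ w) (Tset d) (min ((d + 2).choose 2) (Aw w)) := by
  classical
  have hm : 0 < m := by omega
  obtain ⟨q, hq⟩ : ∃ q, q = k₀ * (k₀ + 1) := ⟨_, rfl⟩
  have hqm : q ≤ m * (m + 1) := by
    rw [hq]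
    exact Nat.mul_le_mul hkm (by omega)
  have hq0 : 0 < q := by
    rw [hq]
    positivity
  obtain ⟨c₀, hc₀⟩ : ∃ c₀, c₀ = (k₀ + 1).choose 2 := ⟨_, rfl⟩
  have hc₀2 : 2 * c₀ = q := by rw [hc₀, hq]; exact two_choose' k₀
  obtain ⟨c, hc⟩ : ∃ c, c = (m + 1).choose 2 := ⟨_, rfl⟩
  have hc2 : 2 * c = m * (m + 1) := by rw [hc]; exact two_choose' m
  have hc0 : 0 < c := by
    rw [hc]
    exact Nat.choose_pos (by omega)
  obtain ⟨W, hW⟩ : ∃ W, W = 2 * (m + 1).choose 3 := ⟨_, rfl⟩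
  have hW3 : 3 * W + m = m * m * m := by rw [hW]; exact R4h.three_choose m
  obtain ⟨σ, hσ⟩ : ∃ σ, σ = Slg m w := ⟨_, rfl⟩
  rw [← hσ] at hd
  rw [← hq] at hN1 hN2 hfr
  -- the slope
  obtain ⟨δ, x, hδ, hx1, hx2⟩ : ∃ δ x, d = (m + 1) * δ + x ∧ (m + 1) * (m + 1) + 1 ≤ x ∧
      σ + m ≤ δ := by
    obtain ⟨y, hy⟩ : ∃ y, d = y + ((m + 1) * (m + 1) + 1) := ⟨d - ((m + 1) * (m + 1) + 1), by
      have : (m + 1) * (σ + 2 * m + 1) = (m + 1) * (σ + m) + (m + 1) * (m + 1) := by ring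
      omega⟩
    refine ⟨y / (m + 1), y % (m + 1) + ((m + 1) * (m + 1) + 1), ?_, by omega, ?_⟩
    · have := Nat.div_add_mod y (m + 1)
      omega
    · rw [Nat.le_div_iff_mul_le (by omega)]
      have : (m + 1) * (σ + 2 * m + 1) = (σ + m) * (m + 1) + (m + 1) * (m + 1) := by ring
      omega
  -- the reserved points
  have hcard : Nat.card {a // w a = k₀} = (Finset.univ.filter fun a => w a = k₀).card := by
    rw [Nat.card_eq_fintype_card, Fintype.card_subtype]
  rw [hcard] at hfr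
  obtain ⟨e, he1, he2, he3⟩ := num_div hq0 hfr
  obtain ⟨E, hE, hEc⟩ := Finset.exists_subset_card_eq he3
  have hEw : ∀ a ∈ E, w a = k₀ := fun a ha => (Finset.mem_filter.1 (hE ha)).2
  obtain ⟨T, hT⟩ : ∃ T, T = Finset.univ.filter fun a => w a < k₀ := ⟨_, rfl⟩
  obtain ⟨B, hB⟩ : ∃ B, B = (Finset.univ.filter fun a => k₀ ≤ w a ∧ w a ≤ m) \ E := ⟨_, rfl⟩
  obtain ⟨Lg, hLg⟩ : ∃ Lg, Lg = Finset.univ.filter fun a => ¬ w a ≤ m := ⟨_, rfl⟩
  have hTmem : ∀ a, a ∈ T ↔ w a < k₀ := fun a => by rw [hT]; simp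
  have hBmem : ∀ a, a ∈ B ↔ (k₀ ≤ w a ∧ w a ≤ m) ∧ a ∉ E := fun a => by rw [hB]; simp
  have hLmem : ∀ a, a ∈ Lg ↔ ¬ w a ≤ m := fun a => by rw [hLg]; simp
  obtain ⟨f, hf⟩ : ∃ f : ι → ℕ, f = fun a => (w a + 1).choose 2 := ⟨_, rfl⟩
  have hfa : ∀ a, f a = (w a + 1).choose 2 := fun a => by rw [hf]
  have hf2 : ∀ a, 2 * f a = w a * (w a + 1) := fun a => by rw [hfa]; exact two_choose' _
  -- sums
  have hTsum : 2 * ∑ a ∈ T, f a ≤ ((m + 1) * (m + 1) + 2) * ((m + 1) * (m + 1) + 3) := by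
    refine le_trans (le_of_eq ?_) htail
    rw [hT, Finset.mul_sum, Finset.sum_filter]
    refine Finset.sum_congr rfl fun a _ => ?_
    split_ifs
    · exact hf2 a
    · rfl
  have hTx : ∑ a ∈ T, f a ≤ (x + 2).choose 2 + W := by
    have h1 : ((m + 1) * (m + 1) + 2) * ((m + 1) * (m + 1) + 3) ≤ (x + 1) * (x + 2) :=
      Nat.mul_le_mul (by omega) (by omega)
    have h2 := R3h.two_choose' x
    omega
  have hAll : ∑ a ∈ T ∪ B, f a + ∑ a ∈ E, f a + Alg m w = Aw w := by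
    have h1 : Disjoint (T ∪ B) E := by
      rw [Finset.disjoint_left]
      intro a ha ha'
      rcases Finset.mem_union.1 ha with h | h
      · rw [hTmem] at h
        have := hEw a ha'
        omega
      · exact ((hBmem a).1 h).2 ha'
    have h2 : Alg m w = ∑ a ∈ Lg, f a := by
      unfold Alg
      rw [hLg, Finset.sum_filter]
      refine Finset.sum_congr rfl fun a _ => ?_
      rw [hfa]
      split_ifs <;> rfl
    have h3 : Disjoint (T ∪ B ∪ E) Lg := by
      rw [Finset.disjoint_left]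
      intro a ha ha'
      rw [hLmem] at ha'
      rcases Finset.mem_union.1 ha with h | h
      · rcases Finset.mem_union.1 h with h | h
        · rw [hTmem] at h
          omega
        · rw [hBmem] at h
          omega
      · have := hEw a h
        omega
    rw [← Finset.sum_union h1, h2, ← Finset.sum_union h3]
    have h4 : T ∪ B ∪ E ∪ Lg = Finset.univ := by
      rw [Finset.eq_univ_iff_forall]
      intro a
      rw [Finset.mem_union, Finset.mem_union, Finset.mem_union, hTmem, hBmem, hLmem]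
      by_cases h : a ∈ E
      · tauto
      · rcases Nat.lt_or_ge (w a) k₀ with h' | h'
        · tauto
        · rcases Nat.lt_or_ge m (w a) with h'' | h''
          · right
            omega
          · tauto
    rw [h4]
    unfold Aw
    exact Finset.sum_congr rfl fun a _ => hfa a
  have hEsum : 2 * ∑ a ∈ E, f a = e * q := by
    rw [Finset.sum_congr rfl (g := fun _ => c₀) (fun a ha => by rw [hfa, hEw a ha, hc₀]),
      Finset.sum_const, smul_eq_mul, hEc, ← hc₀2]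
    ring
  have hLsum := Alg_le m w
  rw [← hσ] at hLsum
  have hnumB := numB hm hW3 hx1 hx2 hδ hqm
  have hd2 := R3h.two_choose' d
  have hx3 := R3h.two_choose' x
  obtain ⟨S, hS1, hS2, hS3, hS4, hS5⟩ := pick f T B c ((x + 2).choose 2 + W)
    (Fintype.card ι + Lg.card + δ) hc0 (fun a ha => by
      rw [hfa, hc]
      exact Nat.choose_le_choose 2 (by
        have := ((hBmem a).1 ha).1.2
        omega)) hTx (by omega)
  have hSle : ∀ a ∈ S, w a ≤ m := by
    intro a ha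
    rcases Finset.mem_union.1 (hS2 ha) with h | h
    · rw [hTmem] at h
      omega
    · exact ((hBmem a).1 h).1.2
  have hSL : Disjoint S Lg := by
    rw [Finset.disjoint_left]
    intro a ha ha'
    rw [hLmem] at ha'
    exact ha' (hSle a ha)
  obtain ⟨R, hR⟩ : ∃ R, R = S ∪ Lg := ⟨_, rfl⟩
  have hRc : R.card = S.card + Lg.card := by rw [hR, Finset.card_union_of_disjoint hSL]
  have hRmem : ∀ a, a ∈ R ↔ a ∈ S ∨ ¬ w a ≤ m := fun a => by
    rw [hR, Finset.mem_union, hLmem]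
  obtain ⟨wR, hwR⟩ : ∃ wR : {a // a ∈ R} → ℕ, wR = fun a : {a // a ∈ R} => w a := ⟨_, rfl⟩
  -- the quantities for the placed points
  have hsumR : ∀ g : ι → ℕ, ∑ a : {a // a ∈ R}, g a = ∑ a ∈ S, g a + ∑ a ∈ Lg, g a := by
    intro g
    rw [Finset.sum_coe_sort R g, hR, Finset.sum_union hSL]
  have hAsm : Asm m wR = ∑ a ∈ S, f a := by
    unfold Asm
    rw [hwR]
    have h1 := hsumR fun a => if w a ≤ m then (w a + 1).choose 2 else 0
    refine h1.trans ?_
    have h2 : ∑ a ∈ Lg, (if w a ≤ m then (w a + 1).choose 2 else 0) = 0 :=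
      Finset.sum_eq_zero fun a ha => if_neg ((hLmem a).1 ha)
    rw [h2, add_zero]
    exact Finset.sum_congr rfl fun a ha => by rw [if_pos (hSle a ha), hfa]
  have hSlg : Slg m wR = σ := by
    unfold Slg
    rw [hwR, hσ]
    unfold Slg
    have h1 := hsumR fun a => if w a ≤ m then 0 else w a
    refine h1.trans ?_
    have h2 : ∑ a ∈ S, (if w a ≤ m then 0 else w a) = 0 :=
      Finset.sum_eq_zero fun a ha => if_pos (hSle a ha)
    rw [h2, zero_add, hLg, Finset.sum_filter]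
    refine Finset.sum_congr rfl fun a _ => ?_
    split_ifs <;> rfl
  have hAlg : 2 * Alg m wR ≤ σ * (σ + 1) := by
    have := Alg_le m wR
    rw [hSlg] at this
    exact this
  obtain ⟨A, hA⟩ : ∃ A, A = Aw wR := ⟨_, rfl⟩
  have hAsum := Asm_add_Alg m wR
  rw [hAsm, ← hA] at hAsum
  obtain ⟨As, hAs⟩ : ∃ As, As = ∑ a ∈ S, f a := ⟨_, rfl⟩
  rw [← hAs] at hAsum hAsm hS3 hS4
  obtain ⟨y, hy⟩ : ∃ y, δ = σ + m + y := ⟨δ - (σ + m), by omega⟩
  have hnumA := numA (c := x + m + y) (A := As) hm hW3 hx1 (by omega) (by omega)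
  have hC := R3h.two_choose' (x + m + y)
  -- the place
  obtain ⟨A₂, hA₂⟩ : ∃ A₂, A₂ = Aw (fun a : {a // a ∉ R} => w a) := ⟨_, rfl⟩
  have hsplit := Aw_split w R
  rw [← hwR, ← hA, ← hA₂] at hsplit
  obtain ⟨b, hb⟩ : ∃ b, b = x + δ + 1 := ⟨_, rfl⟩
  have hdb : d + 1 = δ * m + b := by
    rw [hδ, hb]
    ring
  have hbb : 2 * A + 2 * (m + 1) ≤ b * (b + 1) := by
    have h1 : b * (b + 1) = (x + m + y + 1) * (x + m + y + 2) +
        σ * (2 * (x + m + y) + 3) + σ * σ := by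
      rw [hb, hy]
      ring
    have h2 : σ * (σ + 1) = σ * σ + σ := by ring
    have h3 : σ ≤ σ * (2 * (x + m + y) + 3) := Nat.le_mul_of_pos_right _ (by omega)
    omega
  have hbd : b * (b + 1) ≤ (d + 1) * (d + 2) := by
    refine Nat.mul_le_mul ?_ ?_
    · rw [hdb]
      omega
    · rw [show d + 2 = d + 1 + 1 from rfl, hdb]
      omega
  obtain ⟨N₀, hN₀⟩ : ∃ N₀, (d + 2).choose 2 = A + N₀ := ⟨(d + 2).choose 2 - A, by omega⟩
  have hmin : min ((d + 2).choose 2) (Aw w) = A + min N₀ A₂ := by omega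
  rw [hmin]
  refine place2 w R d δ m b A (by omega) (by omega) ?_ hdb (by omega) (by rw [hA, hwR]) ?_ ?_ hbb _
    ?_
  · have h1 : m * 1 ≤ δ * δ := Nat.mul_le_mul (by omega) (by omega)
    omega
  · rw [← hwR, hA]
    have h1 : b - 1 = x + m + y + Slg m wR := by
      rw [hSlg, hb, hy]
      omega
    rw [h1]
    refine ind_large ℚ wR m (x + m + y) hm (big_x hm (by omega)) ?_
    rw [← hW, hAsm]
    omega
  · rw [← hwR]
    have h1 : b - 1 - δ = x := by omega
    rw [h1]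
    refine full_large ℚ wR m x hm (big_x hm hx1) ?_
    rw [← hW, hAsm]
    exact hS3
  · intro κ t' j h1 h2 h4
    have hsz : sz (δ * δ + 2 * κ) m t' j = 2 * N₀ := by omega
    have hδδ : δ ≤ δ * δ := Nat.le_mul_of_pos_left _ (by omega)
    rw [hA₂]
    refine W608.t_x ℚ k₀ m hk₀ hkm {a // a ∉ R} (fun a => w a) (fun a => ?_)
      _ N₀ (δ * δ + 2 * κ) m t' j rfl (by omega) ⟨h1, h2, by omega⟩ hsz ?_ ?_ ?_ ?_ ?_
    · have h5 := a.2
      rw [hRmem] at h5
      push Not at h5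
      refine ⟨?_, h5.2⟩
      by_contra h6
      exact h5.1 (hS1 ((hTmem _).2 (not_le.1 h6)))
    · rw [← hsz]
      unfold sz
      rw [mul_assoc (δ * δ + 2 * κ) m (m + 1), add_assoc]
      exact Nat.le_add_right _ _
    · have h5 : (δ * δ) % 2 = δ % 2 := by
        rcases Nat.mod_two_eq_zero_or_one δ with h | h <;> simp [Nat.mul_mod, h]
      have h6 : Fintype.card {a // a ∉ R} = Fintype.card ι - R.card := by
        rw [Fintype.card_subtype_compl, Fintype.card_coe]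
      have h7 : R.card ≤ Fintype.card ι := Finset.card_le_univ R
      rw [h6]
      omega
    · rw [← hA₂, ← hq]
      omega
    · rw [← hA₂, ← hq]
      omega
    · rw [← hq]
      refine le_trans he1 (Nat.mul_le_mul_right q ?_)
      rw [← hEc, ← Fintype.card_coe, ← Nat.card_eq_fintype_card]
      refine Nat.card_le_card_of_injective (fun a => ⟨⟨a.1, ?_⟩, hEw a.1 a.2⟩) ?_
      · rw [hRmem]
        rintro (h8 | h8)
        · rcases Finset.mem_union.1 (hS2 h8) with h | h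
          · rw [hTmem] at h
            have := hEw a.1 a.2
            omega
          · exact ((hBmem _).1 h).2 a.2
        · have := hEw a.1 a.2
          omega
      · intro a b hab
        have h8 := congrArg (fun t => (t.1.1 : ι)) hab
        exact Subtype.ext h8

end Pool.Agent.W611
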