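import Mathlib
import Pool.Agent.W611.Near2
import Pool.Agent.W608.Rank4

set_option autoImplicit false

/-!
# Exact ranks in every degree at least quadratic in the multiplicities
-/

namespace Pool.Agent.W611

open Polynomial Pool.Agent.H932R2 Pool.Agent.H932R3 Pool.Agent.H932R7 Pool.Agent.W608

theorem tail_le {ι : Type} [Fintype ι] (w : ι → ℕ) (F K₀ : ℕ)
    (h : ∀ k, 1 ≤ k → k < K₀ + 1 → Nat.card {a // w a = k} * (k * (k + 1)) ≤ F) :
    (∑ a, if w a < K₀ + 1 then w a * (w a + 1) else 0) ≤ K₀ * F := by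
  classical
  induction K₀ with
  | zero =>
    rw [Finset.sum_eq_zero, Nat.zero_mul]
    intro a _
    split_ifs with h1
    · have : w a = 0 := by omega
      rw [this, Nat.zero_mul]
    · rfl
  | succ K₀ ih =>
    have h1 := ih fun k hk hk' => h k hk (by omega)
    have h2 := h (K₀ + 1) (by omega) (by omega)
    have h3 : (∑ a, if w a < K₀ + 1 + 1 then w a * (w a + 1) else 0) =
        (∑ a, if w a < K₀ + 1 then w a * (w a + 1) else 0) +
          ∑ a, if w a = K₀ + 1 then (K₀ + 1) * (K₀ + 1 + 1) else 0 := by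
      rw [← Finset.sum_add_distrib]
      refine Finset.sum_congr rfl fun a _ => ?_
      rcases Nat.lt_trichotomy (w a) (K₀ + 1) with h4 | h4 | h4
      · rw [if_pos (by omega), if_pos h4, if_neg (by omega), add_zero]
      · rw [if_pos (by omega), if_neg (by omega), if_pos h4, zero_add, h4]
      · rw [if_neg (by omega), if_neg (by omega), if_neg (by omega)]
    have h4 : (∑ a, if w a = K₀ + 1 then (K₀ + 1) * (K₀ + 1 + 1) else 0) =
        Nat.card {a // w a = K₀ + 1} * ((K₀ + 1) * (K₀ + 1 + 1)) := by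
      rw [← Finset.sum_filter, Finset.sum_const, smul_eq_mul, Nat.card_eq_fintype_card,
        Fintype.card_subtype]
    rw [h3, h4, Nat.add_mul K₀ 1 F, Nat.one_mul]
    exact Nat.add_le_add h1 h2

theorem numC {m σ d : ℕ} (hd : (m + 1) * (σ + 2 * m + 1) + 1 ≤ d) :
    m * (m * (m + 1) * (m + 3)) + m * (m + 1) + σ * (σ + 1) ≤ (d + 1) * (d + 2) := by
  have h1 : (m + 1) * (σ + 2 * m + 1) = m * σ + σ + 2 * (m * m) + 3 * m + 1 := by ring
  have h2 : (σ + (2 * (m * m) + 3 * m + 3)) * (σ + (2 * (m * m) + 3 * m + 3) + 1) ≤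
      (d + 1) * (d + 2) := Nat.mul_le_mul (by omega) (by omega)
  have h3 : (σ + (2 * (m * m) + 3 * m + 3)) * (σ + (2 * (m * m) + 3 * m + 3) + 1) =
      m * (m * (m + 1) * (m + 3)) + m * (m + 1) + σ * (σ + 1) +
        (2 * (σ * (2 * (m * m) + 3 * m + 3)) + 3 * (m * m * m * m) + 8 * (m * m * m) +
          19 * (m * m) + 20 * m + 12) := by ring
  omega

theorem numD {m k : ℕ} (hk : k + 1 ≤ m) :
    k * (m * (m + 1) * (m + 3)) ≤ ((m + 1) * (m + 1) + 2) * ((m + 1) * (m + 1) + 3) := by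
  obtain ⟨y, rfl⟩ : ∃ y, m = k + 1 + y := ⟨m - (k + 1), by omega⟩
  refine le_trans (Nat.mul_le_mul_right _ (show k ≤ k + 1 + y - 1 by omega)) ?_
  obtain ⟨m, hm⟩ : ∃ m, k + 1 + y = m + 1 := ⟨k + y, by omega⟩
  rw [hm, Nat.add_sub_cancel]
  have : ((m + 1 + 1) * (m + 1 + 1) + 2) * ((m + 1 + 1) * (m + 1 + 1) + 3) =
      m * ((m + 1) * (m + 1 + 1) * (m + 1 + 3)) +
        (m * m * m + 15 * (m * m) + 44 * m + 42) := by ring
  omega

/-- A frequent multiplicity. -/
theorem exists_rich {ι : Type} [Fintype ι] (w : ι → ℕ) (m d : ℕ)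
    (hd : (m + 1) * (Slg m w + 2 * m + 1) + 1 ≤ d)
    (hA : (d + 1) * (d + 2) < 2 * Aw w + m * (m + 1)) :
    ∃ k₀, 0 < k₀ ∧ k₀ ≤ m ∧
      m * (m + 1) * (m + 3) ≤ Nat.card {a // w a = k₀} * (k₀ * (k₀ + 1)) ∧
      (∑ a, if w a < k₀ then w a * (w a + 1) else 0) ≤
        ((m + 1) * (m + 1) + 2) * ((m + 1) * (m + 1) + 3) := by
  classical
  have hex : ∃ k, 1 ≤ k ∧ k ≤ m ∧
      m * (m + 1) * (m + 3) ≤ Nat.card {a // w a = k} * (k * (k + 1)) := by
    by_contra hcon
    push Not at hcon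
    have h1 := tail_le w (m * (m + 1) * (m + 3)) m fun k hk hk' => (hcon k hk (by omega)).le
    have h2 : (∑ a, if w a < m + 1 then w a * (w a + 1) else 0) = 2 * Asm m w := by
      unfold Asm
      rw [Finset.mul_sum]
      refine Finset.sum_congr rfl fun a _ => ?_
      by_cases h : w a ≤ m
      · rw [if_pos (by omega), if_pos h, two_choose']
      · rw [if_neg (by omega), if_neg h, mul_zero]
    have h3 := Asm_add_Alg m w
    have h4 := Alg_le m w
    have h5 := numC hd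
    omega
  obtain ⟨hf0, hf1, hf2⟩ := Nat.find_spec hex
  have hfmin := fun k => Nat.find_min hex (m := k)
  obtain ⟨k₀, hk₀⟩ : ∃ k₀, k₀ = Nat.find hex := ⟨_, rfl⟩
  rw [← hk₀] at hf0 hf1 hf2 hfmin
  refine ⟨k₀, hf0, hf1, hf2, ?_⟩
  obtain ⟨κ, hκ⟩ : ∃ κ, k₀ = κ + 1 := ⟨k₀ - 1, by omega⟩
  have h3 := tail_le w (m * (m + 1) * (m + 3)) κ fun k hk hk' => by
    by_contra h4
    exact hfmin k (by omega) ⟨hk, by omega, (not_le.1 h4).le⟩
  rw [hκ]
  exact le_trans h3 (numD (by omega))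

/-- The ranks in every degree at least quadratic in the multiplicities. -/
theorem rankD (m : ℕ) (hm : 0 < m) (ι : Type) [Fintype ι] (w : ι → ℕ) (d : ℕ)
    (hd : (m + 1) * (Slg m w + 2 * m + 1) + 1 ≤ d) :
    RkS (PF ℚ w) (Tset d) (min ((d + 2).choose 2) (Aw w)) := by
  classical
  obtain ⟨N, hN⟩ : ∃ N, N = (d + 2).choose 2 := ⟨_, rfl⟩
  have hN2 : 2 * N = (d + 1) * (d + 2) := by rw [hN]; exact R3h.two_choose' d
  rw [← hN]
  rcases Nat.le_total (Aw w) N with hAN | hNA
  · -- adding points of multiplicity `m`, then of multiplicity `k₀`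
    rw [min_eq_right hAN]
    obtain ⟨c, hc⟩ : ∃ c, c = (m + 1).choose 2 := ⟨_, rfl⟩
    have hc2 : 2 * c = m * (m + 1) := by rw [hc]; exact two_choose' m
    have hc0 : 0 < c := by
      rw [hc]
      exact Nat.choose_pos (by omega)
    obtain ⟨x, hx⟩ : ∃ x, x = (N - Aw w) / c := ⟨_, rfl⟩
    have hx1 : x * c ≤ N - Aw w := by
      rw [hx]
      exact Nat.div_mul_le_self _ _
    have hx2 : N - Aw w < x * c + c := by
      rw [hx]
      exact Nat.lt_div_mul_add hc0
    obtain ⟨w1, hw1⟩ : ∃ w1 : ι ⊕ Fin x → ℕ, w1 = Sum.elim w (fun _ : Fin x => m) := ⟨_, rfl⟩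
    have hA1 : Aw w1 = Aw w + x * c := by
      unfold Aw
      rw [hw1, Fintype.sum_sum_type]
      simp only [Sum.elim_inl, Sum.elim_inr, Finset.sum_const, Finset.card_univ, Fintype.card_fin,
        smul_eq_mul]
      rw [← hc]
    have hS1 : Slg m w1 = Slg m w := by
      unfold Slg
      rw [hw1, Fintype.sum_sum_type]
      have h1 : ∑ b : Fin x, (if Sum.elim w (fun _ : Fin x => m) (Sum.inr b) ≤ m then 0 else
          Sum.elim w (fun _ : Fin x => m) (Sum.inr b)) = 0 :=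
        Finset.sum_eq_zero fun b _ => if_pos le_rfl
      exact Nat.add_eq_left.2 h1
    obtain ⟨k₀, h0, h1, h2, h3⟩ := exists_rich w1 m d (by rw [hS1]; exact hd) (by omega)
    obtain ⟨c₀, hc₀⟩ : ∃ c₀, c₀ = (k₀ + 1).choose 2 := ⟨_, rfl⟩
    have hc₀2 : 2 * c₀ = k₀ * (k₀ + 1) := by rw [hc₀]; exact two_choose' k₀
    have hc₀0 : 0 < c₀ := by
      rw [hc₀]
      exact Nat.choose_pos (by omega)
    obtain ⟨y, hy⟩ : ∃ y, y = (N - Aw w1) / c₀ := ⟨_, rfl⟩
    have hy1 : y * c₀ ≤ N - Aw w1 := by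
      rw [hy]
      exact Nat.div_mul_le_self _ _
    have hy2 : N - Aw w1 < y * c₀ + c₀ := by
      rw [hy]
      exact Nat.lt_div_mul_add hc₀0
    obtain ⟨w2, hw2⟩ : ∃ w2 : (ι ⊕ Fin x) ⊕ Fin y → ℕ,
      w2 = Sum.elim w1 (fun _ : Fin y => k₀) := ⟨_, rfl⟩
    have hA2 : Aw w2 = Aw w1 + y * c₀ := by
      unfold Aw
      rw [hw2, Fintype.sum_sum_type]
      simp only [Sum.elim_inl, Sum.elim_inr, Finset.sum_const, Finset.card_univ, Fintype.card_fin,
        smul_eq_mul]
      rw [← hc₀]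
    have hS2 : Slg m w2 = Slg m w := by
      rw [← hS1]
      unfold Slg
      rw [hw2, Fintype.sum_sum_type]
      have h4 : ∑ b : Fin y, (if Sum.elim w1 (fun _ : Fin y => k₀) (Sum.inr b) ≤ m then 0 else
          Sum.elim w1 (fun _ : Fin y => k₀) (Sum.inr b)) = 0 :=
        Finset.sum_eq_zero fun b _ => if_pos h1
      exact Nat.add_eq_left.2 h4
    have hq : k₀ * (k₀ + 1) ≤ m * (m + 1) := Nat.mul_le_mul h1 (by omega)
    have h := rankC k₀ m h0 h1 _ w2 d (by rw [hS2]; exact hd)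
      (by
        rw [hw2, Fintype.sum_sum_type]
        have h4 : (∑ b : Fin y, if Sum.elim w1 (fun _ : Fin y => k₀) (Sum.inr b) < k₀ then
            Sum.elim w1 (fun _ : Fin y => k₀) (Sum.inr b) *
              (Sum.elim w1 (fun _ : Fin y => k₀) (Sum.inr b) + 1) else 0) = 0 :=
          Finset.sum_eq_zero fun b _ => if_neg (lt_irrefl _)
        rw [h4, add_zero]
        exact h3)
      (by rw [← hN]; omega) (by rw [← hN]; omega)
      (by
        have h4 : Nat.card {a // w1 a = k₀} ≤ Nat.card {a // w2 a = k₀} := by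
          refine Nat.card_le_card_of_injective (fun a => ⟨Sum.inl a.1, ?_⟩) ?_
          · rw [hw2]
            exact a.2
          · intro a b hab
            have h5 := congrArg Subtype.val hab
            exact Subtype.ext (Sum.inl_injective h5)
        have h5 := Nat.mul_le_mul_right (k₀ * (k₀ + 1)) h4
        have h6 : m * (m + 1) * (m + 3) = m * (m + 1) * (m + 2) + m * (m + 1) := by ring
        omega)
    rw [← hN, min_eq_right (by omega), ← coe_Tfin] at h
    rw [← coe_Tfin]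
    refine (t_tr ℚ ι ((ι ⊕ Fin x) ⊕ Fin y) w w2
      ⟨fun a => Sum.inl (Sum.inl a.1), fun a b hab => ?_⟩ (fun a => ?_) (Tfin d)).1 h
    · exact Subtype.ext (Sum.inl_injective (Sum.inl_injective hab))
    · rw [hw2, hw1]
      exact le_rfl
  · -- removing points
    rw [min_eq_left hNA]
    obtain ⟨f, hf⟩ : ∃ f : ι → ℕ, f = fun a => (w a + 1).choose 2 := ⟨_, rfl⟩
    have hfa : ∀ a, f a = (w a + 1).choose 2 := fun a => by rw [hf]
    obtain ⟨Lg, hLg⟩ : ∃ Lg, Lg = Finset.univ.filter fun a => ¬ w a ≤ m := ⟨_, rfl⟩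
    have hLmem : ∀ a, a ∈ Lg ↔ ¬ w a ≤ m := fun a => by rw [hLg]; simp
    have hAf : Aw w = ∑ a, f a := by
      unfold Aw
      exact Finset.sum_congr rfl fun a _ => (hfa a).symm
    obtain ⟨S, hS, hSmin⟩ := Finset.exists_min_image
      ((Finset.univ : Finset ι).powerset.filter fun S => Lg ⊆ S ∧ N ≤ ∑ a ∈ S, f a)
      Finset.card ⟨Finset.univ, by
        rw [Finset.mem_filter, Finset.mem_powerset]
        exact ⟨Finset.Subset.refl _, Finset.subset_univ _, by rw [← hAf]; exact hNA⟩⟩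
    rw [Finset.mem_filter] at hS
    obtain ⟨-, hS1, hS2⟩ := hS
    have hSer : ∀ a ∈ S, w a ≤ m → ∑ b ∈ S, f b < N + f a := by
      intro a ha ham
      by_contra hcon
      have h1 : ∑ b ∈ S.erase a, f b + f a = ∑ b ∈ S, f b := Finset.sum_erase_add _ _ ha
      have h2 := hSmin (S.erase a) (by
        rw [Finset.mem_filter, Finset.mem_powerset]
        refine ⟨Finset.subset_univ _, ?_, by omega⟩
        intro b hb
        rw [Finset.mem_erase]
        refine ⟨?_, hS1 hb⟩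
        rintro rfl
        exact (hLmem _).1 hb ham)
      rw [Finset.card_erase_of_mem ha] at h2
      have h3 : 0 < S.card := Finset.card_pos.2 ⟨a, ha⟩
      omega
    obtain ⟨w1, hw1⟩ : ∃ w1 : {a // a ∈ S} → ℕ, w1 = fun a : {a // a ∈ S} => w a :=
      ⟨_, rfl⟩
    have hA1 : Aw w1 = ∑ a ∈ S, f a := by
      unfold Aw
      rw [hw1, Finset.sum_coe_sort S fun a => (w a + 1).choose 2]
      exact Finset.sum_congr rfl fun a _ => (hfa a).symm
    have hSl : Slg m w1 = Slg m w := by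
      unfold Slg
      rw [hw1, Finset.sum_coe_sort S fun a => if w a ≤ m then 0 else w a]
      refine Finset.sum_subset (Finset.subset_univ _) fun a _ ha => ?_
      rw [if_pos]
      by_contra h
      exact ha (hS1 ((hLmem a).2 h))
    obtain ⟨k₀, h0, h1, h2, h3⟩ := exists_rich w1 m d (by rw [hSl]; exact hd) (by
      have : 0 < m * (m + 1) := by positivity
      omega)
    have hF0 : 0 < m * (m + 1) * (m + 3) := by positivity
    obtain ⟨a, ha⟩ : ∃ a : {a // a ∈ S}, w1 a = k₀ := by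
      by_contra hcon
      push Not at hcon
      have h4 : Nat.card {a // w1 a = k₀} = 0 := by
        rw [Nat.card_eq_zero]
        left
        exact ⟨fun a => hcon a.1 a.2⟩
      rw [h4, zero_mul] at h2
      omega
    have hak : w a.1 = k₀ := by
      rw [← ha, hw1]
    have h4 := hSer a.1 a.2 (by omega)
    rw [hfa, hak] at h4
    have hc₀2 := two_choose' k₀
    have hq : k₀ * (k₀ + 1) ≤ m * (m + 1) := Nat.mul_le_mul h1 (by omega)
    have hq0 : 0 < k₀ * (k₀ + 1) := by positivity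
    have h := rankC k₀ m h0 h1 _ w1 d (by rw [hSl]; exact hd) h3
      (by rw [← hN]; omega) (by rw [← hN]; omega)
      (by
        have h6 : m * (m + 1) * (m + 3) = m * (m + 1) * (m + 2) + m * (m + 1) := by ring
        omega)
    rw [← hN, min_eq_left (by omega), ← coe_Tfin] at h
    rw [← coe_Tfin]
    have hle : ∀ a : {a // a ∈ S}, w1 a ≤ w a.1 := by
      rw [hw1]
      exact fun a => le_rfl
    exact (t_tr ℚ {a // a ∈ S} ι w1 w
      ⟨fun a => a.1.1, fun a b hab => Subtype.ext (Subtype.ext hab)⟩ (fun a => hle a.1)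
      (Tfin d)).2 _ h

/-- Expected dimension, for general points. -/
theorem exp_quad (L : Type) [Field L] [CharZero L] (m : ℕ) (hm : 0 < m) {n : ℕ}
    (w : Fin n → ℕ) (D : ℕ) (hD : (m + 1) * (Slg m w + 2 * m + 1) + 1 ≤ D) :
    ∃ F : MvPolynomial (Fin n × Fin 2) ℚ, F ≠ 0 ∧ ∀ P : Fin n → Fin 2 → L,
      MvPolynomial.aeval (fun ij : Fin n × Fin 2 => P ij.1 ij.2) F ≠ 0 →
        ∀ d : ℕ, (D ≤ d ∨ (D + 2).choose 2 ≤ Aw w) → ExpDim L w P d := by
  classical
  have hrank : ∀ d, D ≤ d → RkS (PF ℚ w) (Tset d) (min ((d + 2).choose 2) (Aw w)) :=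
    fun d hd => rankD m hm (Fin n) w d (by omega)
  have hex : ∃ d, D ≤ d ∧ Aw w ≤ (d + 2).choose 2 := by
    refine ⟨D + Aw w, by omega, ?_⟩
    have h1 := H932R7.two_choose (D + Aw w)
    nlinarith
  obtain ⟨hfa, hfb⟩ := Nat.find_spec hex
  have hfmin := fun d => Nat.find_min hex (m := d)
  obtain ⟨f, hf⟩ : ∃ f, f = Nat.find hex := ⟨_, rfl⟩
  rw [← hf] at hfa hfb hfmin
  have hr1 := hrank f hfa
  rw [min_eq_right hfb] at hr1
  obtain ⟨F1, hF1, hF1'⟩ := exp_of_indep (L := L) T_HOP hr1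
  obtain ⟨F2, hF2, hF2'⟩ : ∃ F : MvPolynomial (Fin n × Fin 2) ℚ, F ≠ 0 ∧
      ∀ P : Fin n → Fin 2 → L,
      MvPolynomial.aeval (fun ij : Fin n × Fin 2 => P ij.1 ij.2) F ≠ 0 →
        ∀ d : ℕ, (D ≤ d ∨ (D + 2).choose 2 ≤ Aw w) → d < f → ExpDim L w P d := by
    rcases Nat.lt_or_ge D f with h | h
    · have h1 := hrank (f - 1) (by omega)
      have h2 := hfmin (f - 1) (by omega)
      have h3 : (f - 1 + 2).choose 2 < Aw w := by
        by_contra h4
        exact h2 ⟨by omega, by omega⟩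
      rw [min_eq_left h3.le, ← card_Tfin'] at h1
      obtain ⟨F, hF, hF'⟩ := exp_of_full (L := L) T_HOP h1
      exact ⟨F, hF, fun P hP d _ hd => hF' P hP d (by omega)⟩
    · have hDf : f = D := by omega
      by_cases hA : (D + 2).choose 2 ≤ Aw w
      · have h1 := hrank D le_rfl
        rw [min_eq_left hA, ← card_Tfin'] at h1
        obtain ⟨F, hF, hF'⟩ := exp_of_full (L := L) T_HOP h1
        exact ⟨F, hF, fun P hP d _ hd => hF' P hP d (by omega)⟩
      · exact ⟨1, one_ne_zero, fun P _ d h1 h2 => by omega⟩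
  refine ⟨F1 * F2, mul_ne_zero hF1 hF2, fun P hP d hd => ?_⟩
  rw [map_mul] at hP
  rcases Nat.lt_or_ge d f with h | h
  · exact hF2' P (right_ne_zero_of_mul hP) d hd h
  · exact hF1' P (left_ne_zero_of_mul hP) d h

end Pool.Agent.W611
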