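import Mathlib
import Pool.Agent.W611.Heal2

set_option autoImplicit false

/-!
# Healing from a small slope
-/

namespace Pool.Agent.W611

open Polynomial Pool.Agent.H932R2 Pool.Agent.H932R3 Pool.Agent.W608

variable {K : Type*} [Field K] [Infinite K] {𝓘 : Set (Ideal K[X][X])} {n : ℕ}

theorem zeta_heal' (h𝓘 : Stable 𝓘) (B : ℕ) (hK : ∀ k : ℕ, 0 < k → k ≤ B → (k : K) ≠ 0) (h : ℕ)
    (hh : 1 ≤ h) (hB : h ≤ B) (y : ℕ) (hy : y ≤ h) (t : ℕ) :
    ∀ S, 2 * h + h * h ≤ 2 * t + h * S → ∃ κ t', t' < S + 2 * κ ∧ t = t' + κ * h ∧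
      (RkS 𝓘 (Lset (S + 2 * κ) ((S + 2 * κ) * h + t') (y + 1)) n →
        RkS 𝓘 (Zeta S h (S * h + t) (y + 1)) n) := by
  induction t using Nat.strong_induction_on with
  | _ t ih =>
    intro S hS
    rcases Nat.lt_or_ge t S with ht | ht
    · refine ⟨0, t, by omega, by omega, fun hR => ?_⟩
      rw [mul_zero, add_zero] at hR
      refine RkS.mono ?_ hR
      rintro ⟨i, l⟩ hp
      rw [mem_Lset] at hp
      rw [mem_Zeta]
      have hl : l ≤ h := by
        by_contra hcon
        have h1 : S * (h + 1) ≤ S * l := Nat.mul_le_mul_left _ (by omega)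
        have h2 : S * (h + 1) = S * h + S := by ring
        omega
      refine ⟨hl, ?_⟩
      split_ifs <;> omega
    · have hht : h ≤ t := by
        by_contra hcon
        have h1 : h * S ≤ h * h := Nat.mul_le_mul_left _ (by omega)
        omega
      obtain ⟨κ, t', h1, h2, h3⟩ := ih (t - h) (by omega) (S + 2) (by
        have : h * (S + 2) = h * S + 2 * h := by ring
        omega)
      have e1 : S + 2 + 2 * κ = S + 2 * (κ + 1) := by ring
      rw [e1] at h1 h3
      refine ⟨κ + 1, t', h1, ?_, fun hR => ?_⟩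
      · have : (κ + 1) * h = κ * h + h := by ring
        omega
      · refine RkS.compressY h𝓘 (S + 1) B hK (zeta_psi (t := t) rfl hht hy hB) ?_
        refine RkS.compressY h𝓘 (S + 2) B hK (psi_zeta (t := t - h) ?_ hy hB) ?_
        · have e2 : (S + 2) * h = S * h + 2 * h := by ring
          omega
        · have e2 : S * h + t + h = (S + 2) * h + (t - h) := by
            have : (S + 2) * h = S * h + 2 * h := by ring
            omega
          rw [e2]
          exact h3 hR

/-- A short top row heals, and a long trapezoid becomes a balanced shape. -/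
theorem heal3 (h𝓘 : Stable 𝓘) (B : ℕ) (hK : ∀ k : ℕ, 0 < k → k ≤ B → (k : K) ≠ 0) (h : ℕ)
    (hh : 1 ≤ h) (hB : h ≤ B) (X : ℕ) (hX : h + 1 ≤ X) (g : ℕ) :
    ∀ s t : ℕ, (h + 1) * (2 * h + h * h + 2) + 2 * g ≤ (h + 1) * (2 * t + h * s) → X + g = t →
      ∃ κ t' j, t' < s + 2 * κ ∧ j ≤ h + 1 ∧
        sz (s + 2 * κ) h t' j = s * h * (h + 1) + 2 * h * t + 2 * X ∧
        (RkS 𝓘 (Lset (s + 2 * κ) ((s + 2 * κ) * h + t') j) n →
          RkS 𝓘 (Phi s h (s * h + t) X) n) := by
  induction g using Nat.strong_induction_on with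
  | _ g ih =>
    intro s t hs hXg
    obtain ⟨x, hx⟩ : ∃ x, t = x + (h + 1) := ⟨t - (h + 1), by omega⟩
    rcases Nat.lt_or_ge g (h + 1) with hg | hg
    · have hpot : 2 * h + h * h ≤ 2 * x + h * (s + 2) := by
        have h1 : (h + 1) * (2 * h + h * h + 2) ≤ (h + 1) * (2 * t + h * s) := by omega
        have h2 := Nat.le_of_mul_le_mul_left h1 (by omega)
        have h3 : h * (s + 2) = h * s + 2 * h := by ring
        omega
      obtain ⟨κ, t', h1, h2, h3⟩ := zeta_heal' (n := n) h𝓘 B hK h hh hB (h - g) (by omega) x (s + 2)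
        hpot
      have e0 : s + 2 + 2 * κ = s + 2 * (κ + 1) := by ring
      rw [e0] at h1 h3
      refine ⟨κ + 1, t', h - g + 1, h1, by omega, ?_, fun hR => ?_⟩
      · obtain ⟨z, hz⟩ : ∃ z, h = g + z := Nat.exists_eq_add_of_le (by omega)
        have hz' : h - g = z := by omega
        rw [hz']
        unfold sz
        zify at hz hx hXg h2 ⊢
        have hX' : (X : ℤ) = t - g := by linarith
        have hz2 : (z : ℤ) = h - g := by linarith
        have ht' : (t' : ℤ) = t - (h + 1) - κ * h := by linarith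
        rw [hX', hz2, ht']
        ring
      · refine RkS.compressY h𝓘 (s + 1) B hK
          (heal_two (t := t) (y := h - g) rfl hh (by omega) (by omega) (by omega) hB) ?_
        refine RkS.compressY h𝓘 (s + 2) B hK (psi_zeta (t := x) ?_ (by omega) hB) ?_
        · have e1 : (s + 2) * h = s * h + 2 * h := by ring
          omega
        · have e1 : (s + 2) * h = s * h + 2 * h := by ring
          have e2 : s * h + t + h - 1 = (s + 2) * h + x := by
            rw [e1]
            omega
          rw [e2]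
          exact h3 hR
    · obtain ⟨g', hg'⟩ : ∃ g', g = g' + (h + 1) := ⟨g - (h + 1), by omega⟩
      obtain ⟨κ, t', j, h1, h2, h4, h5⟩ := ih g' (by omega) (s + 2) x (by
        have e1 : (h + 1) * (2 * t + h * s) = (h + 1) * (2 * x + h * (s + 2)) + 2 * (h + 1) := by
          rw [hx]
          ring
        omega) (by omega)
      have e3 : s + 2 + 2 * κ = s + 2 * (κ + 1) := by ring
      rw [e3] at h1 h4 h5
      refine ⟨κ + 1, t', j, h1, h2, ?_, fun hR => ?_⟩
      · rw [h4, hx]
        ring
      · refine RkS.compressY h𝓘 (s + 1) B hK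
          (heal_one (t := t) rfl hh (by omega) hB) ?_
        have e1 : (s + 2) * h = s * h + 2 * h := by ring
        have e2 : s * h + t + h - 1 = (s + 2) * h + x := by
          rw [e1]
          omega
        rw [e2]
        exact h5 hR

end Pool.Agent.W611
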