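import Mathlib
import Pool.Agent.W611.Large
import Pool.Agent.W611.Comb2

set_option autoImplicit false

/-!
# Exchanging the two coordinates
-/

namespace Pool.Agent.W611

open Polynomial Pool.Agent.H932R2 Pool.Agent.H932R3 Pool.Agent.H932R7 Pool.Agent.W608

variable {K : Type} [Field K]

theorem swap_mon (p : ℕ × ℕ) : Bivariate.swap (mon K p) = mon K p.swap := by
  obtain ⟨i, l⟩ := p
  unfold mon
  rw [map_mul, map_pow Bivariate.swap, Bivariate.swap_Y, C_pow, map_pow, Bivariate.swap_X,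
    Prod.swap, ← C_pow, mul_comm]

theorem swap_cIdeal (c : K) (γ : K[X]) (m : ℕ) (f : K[X][X])
    (hf : Bivariate.swap f ∈ cIdeal (fun _ : Fin 1 => γ.eval c) (C c) m) :
    f ∈ cIdeal (fun _ : Fin 1 => c) γ m := by
  refine point_le c γ m ?_
  have h1 := Ideal.mem_map_of_mem (Bivariate.swap (R := K)) hf
  rw [Bivariate.swap_swap_apply] at h1
  unfold cIdeal at h1 ⊢
  rw [rootPoly_const, pow_one] at h1 ⊢
  rw [Ideal.map_pow, Ideal.map_span, Set.image_pair, map_sub, Bivariate.swap_Y,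
    Bivariate.swap_C_C, C_sub, map_sub, Bivariate.swap_X, Bivariate.swap_C_C, ← C_sub] at h1
  rw [Set.pair_comm]
  exact h1

theorem swap_mspan {M : Set (ℕ × ℕ)} {f : K[X][X]} (hf : f ∈ mspan K M) :
    Bivariate.swap f ∈ mspan K (Prod.swap '' M) := by
  refine Submodule.span_induction ?_ ?_ ?_ ?_ hf
  · rintro _ ⟨p, hp, rfl⟩
    rw [swap_mon]
    exact Submodule.subset_span ⟨p.swap, ⟨p, hp, rfl⟩, rfl⟩
  · rw [map_zero]
    exact Submodule.zero_mem _
  · intro a b _ _ ha hb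
    rw [map_add]
    exact Submodule.add_mem _ ha hb
  · intro c a _ ha
    rw [map_smul]
    exact Submodule.smul_mem _ _ ha

/-- Exchanging the coordinates. -/
theorem swap_rk {ι : Type} (w : ι → ℕ) {M : Set (ℕ × ℕ)} {n : ℕ} (h : RkS (PF K w) M n) :
    RkS (PF K w) (Prod.swap '' M) n := by
  obtain ⟨_, ⟨c, γ, rfl⟩, v, hv, hli⟩ := h
  refine ⟨_, ⟨fun a => (γ a).eval (c a), fun a => C (c a), rfl⟩, fun i => Bivariate.swap (v i),
    fun i => swap_mspan (hv i), fun b hb => hli b ?_⟩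
  have h1 : ∑ i, b i • Bivariate.swap (v i) = Bivariate.swap (∑ i, b i • v i) := by
    rw [map_sum]
    exact Finset.sum_congr rfl fun i _ => (map_smul _ _ _).symm
  rw [h1] at hb
  unfold vIdeal at hb ⊢
  rw [Ideal.mem_iInf] at hb ⊢
  exact fun a => swap_cIdeal _ _ _ _ (hb a)

theorem swap_swap_image (M : Set (ℕ × ℕ)) : Prod.swap '' (Prod.swap '' M) = M := by
  rw [← Set.image_comp]
  simp

/-- `comb2` for the weight `x.1 + p * x.2`. -/
theorem comb3 {ι ι' : Type} [Fintype ι]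
    (w : ι → ℕ) (w' : ι' → ℕ) (M T T0 : Finset (ℕ × ℕ)) (p : ℕ) (hTM : T ⊆ M) (hT0T : T0 ⊆ T)
    (hα : Set.InjOn (fun x : ℕ × ℕ => x.1 + p * x.2) (↑M : Set (ℕ × ℕ)))
    (hup : ∀ x ∈ M, x ∉ T → ∀ y ∈ T, x.1 + p * x.2 < y.1 + p * y.2)
    (hup0 : ∀ x ∈ T, x ∉ T0 → ∀ y ∈ T0, x.1 + p * x.2 < y.1 + p * y.2)
    (h1 : RkS (PF ℚ w) (↑T : Set (ℕ × ℕ)) (Aw w))
    (h1' : RkS (PF ℚ w) (↑T0 : Set (ℕ × ℕ)) T0.card)
    (N : ℕ)
    (h2 : ∀ R ⊆ T, T0 ⊆ R → R.card = Aw w →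
      RkS (PF ℚ w') ((↑M : Set (ℕ × ℕ)) \ (↑R : Set (ℕ × ℕ))) N) :
    RkS (PF ℚ (Sum.elim w w')) (↑M : Set (ℕ × ℕ)) (Aw w + N) := by
  classical
  have hc : ∀ S : Finset (ℕ × ℕ), (↑(S.map (Equiv.prodComm ℕ ℕ).toEmbedding) : Set (ℕ × ℕ)) =
      Prod.swap '' (↑S : Set (ℕ × ℕ)) := fun S => by
    rw [Finset.coe_map]
    rfl
  have hmem : ∀ (S : Finset (ℕ × ℕ)) (x : ℕ × ℕ),
      x ∈ S.map (Equiv.prodComm ℕ ℕ).toEmbedding ↔ x.swap ∈ S := by
    intro S x
    rw [Finset.mem_map_equiv]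
    rfl
  have h3 := comb2 (K := ℚ) w w' (M.map (Equiv.prodComm ℕ ℕ).toEmbedding)
    (T.map (Equiv.prodComm ℕ ℕ).toEmbedding) (T0.map (Equiv.prodComm ℕ ℕ).toEmbedding) p
    (Finset.map_subset_map.2 hTM) (Finset.map_subset_map.2 hT0T) ?_ ?_ ?_ ?_ N ?_
  · have h4 := swap_rk _ h3
    rw [hc, swap_swap_image] at h4
    exact h4
  · intro x hx y hy hxy
    rw [Finset.mem_coe, hmem] at hx hy
    have h4 := hα hx hy (by
      simp only [Prod.fst_swap, Prod.snd_swap] at hxy ⊢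
      omega)
    exact Prod.swap_injective h4
  · intro x hx hxT y hy
    rw [hmem] at hx hxT hy
    have h4 := hup _ hx hxT _ hy
    simp only [Prod.fst_swap, Prod.snd_swap] at h4 ⊢
    omega
  · intro x hx hxT y hy
    rw [hmem] at hx hxT hy
    have h4 := hup0 _ hx hxT _ hy
    simp only [Prod.fst_swap, Prod.snd_swap] at h4 ⊢
    omega
  · refine common ?_ ?_
    · rw [hc]
      exact swap_rk _ h1
    · rw [hc, Finset.card_map]
      exact swap_rk _ h1'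
  · intro R hR hR0 hRc
    have h4 := h2 (R.map (Equiv.prodComm ℕ ℕ).toEmbedding) ?_ ?_ (by rw [Finset.card_map, hRc])
    · have h5 := swap_rk _ h4
      rw [Set.image_sdiff Prod.swap_injective, hc, swap_swap_image] at h5
      rw [hc]
      exact h5
    · intro x hx
      rw [hmem] at hx
      have := hR hx
      rwa [hmem, Prod.swap_swap] at this
    · intro x hx
      rw [hmem]
      refine hR0 ?_
      rw [hmem, Prod.swap_swap]
      exact hx

end Pool.Agent.W611
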