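import Mathlib
import Pool.Agent.W611.Peel
import Pool.Agent.W611.Near2

set_option autoImplicit false

/-!
# Exact ranks near the critical degree, with two distinguished points
-/

namespace Pool.Agent.W611

open Polynomial Pool.Agent.H932R2 Pool.Agent.H932R3 Pool.Agent.H932R7 Pool.Agent.W608

/-- The bound. -/
def ff (m : ℕ) : ℕ := 2 * (m * m) + 3 * m + 2

theorem card_rel {d m a b s₀ t : ℕ} (hb : m < b) (ht : 1 ≤ t)
    (hcase : (s₀ = 1 ∧ m < a ∧ a + b + t = d) ∨ (s₀ = 0 ∧ a = 0 ∧ b + t = d + 1)) :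
    2 * (Mfin d a b).card = 2 * (Tm d a b m).card + s₀ * m * (m + 1) + 2 * m * t ∧
      (Tm d a b (m + 1)).card + t ≤ (Tm d a b m).card := by
  obtain ⟨b', rfl⟩ : ∃ b', b = b' + (m + 1) := ⟨b - (m + 1), by omega⟩
  rcases hcase with ⟨rfl, ha, hd⟩ | ⟨rfl, rfl, hd⟩
  · obtain ⟨a', rfl⟩ : ∃ a', a = a' + (m + 1) := ⟨a - (m + 1), by omega⟩
    rw [card_Tm (d := d) (u := m) (by omega) (by omega),
      card_Tm (d := d) (u := m + 1) (by omega) (by omega)]
    have e1 : a' + (m + 1) - m = a' + 1 := by omega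
    have e2 : b' + (m + 1) - m = b' + 1 := by omega
    have e3 : a' + (m + 1) - (m + 1) = a' := by omega
    have e4 : b' + (m + 1) - (m + 1) = b' := by omega
    have e5 : d - m = a' + b' + t + m + 2 := by omega
    have e6 : d - (m + 1) = a' + b' + t + m + 1 := by omega
    rw [e1, e2, e3, e4, e5, e6]
    have h1 := card_Mfin (d := d) (a := a' + (m + 1)) (b := b' + (m + 1)) (by omega)
    have h2 := card_Mfin (d := a' + b' + t + m + 2) (a := a' + 1) (b := b' + 1) (by omega)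
    have h3 := card_Mfin (d := a' + b' + t + m + 1) (a := a') (b := b') (by omega)
    have c1 := two_choose' (a' + (m + 1))
    have c2 := two_choose' (b' + (m + 1))
    have c3 := two_choose' (a' + 1)
    have c4 := two_choose' (b' + 1)
    have c5 := two_choose' a'
    have c6 := two_choose' b'
    have c7 := R3h.two_choose' d
    have c8 := R3h.two_choose' (a' + b' + t + m + 2)
    have c9 := R3h.two_choose' (a' + b' + t + m + 1)
    have hd' : d = a' + b' + t + 2 * m + 2 := by omega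
    subst hd'
    constructor
    · zify at h1 h2 h3 c1 c2 c3 c4 c5 c6 c7 c8 c9 ⊢
      linear_combination 2 * h1 - 2 * h2 - c1 - c2 + c3 + c4 + c7 - c8
    · have h4 : 2 * (Mfin (a' + b' + t + m + 1) a' b').card + 2 * (t + m + 1) =
          2 * (Mfin (a' + b' + t + m + 2) (a' + 1) (b' + 1)).card := by
        zify at h1 h2 h3 c1 c2 c3 c4 c5 c6 c7 c8 c9 ⊢
        linear_combination 2 * h3 - 2 * h2 - c5 - c6 + c3 + c4 + c9 - c8
      omega
  · rw [card_Tm (d := d) (u := m) (by omega) (by omega),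
      card_Tm (d := d) (u := m + 1) (by omega) (by omega)]
    have e2 : b' + (m + 1) - m = b' + 1 := by omega
    have e4 : b' + (m + 1) - (m + 1) = b' := by omega
    have e5 : d - m = b' + t := by omega
    rw [e2, e4, Nat.zero_sub, Nat.zero_sub, e5]
    have h1 := card_Mfin (d := d) (a := 0) (b := b' + (m + 1)) (by omega)
    have h2 := card_Mfin (d := b' + t) (a := 0) (b := b' + 1) (by omega)
    have h3 := card_Mfin (d := d - (m + 1)) (a := 0) (b := b') (by omega)
    have c0 : (0 + 1).choose 2 = 0 := rfl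
    have c2 := two_choose' (b' + (m + 1))
    have c4 := two_choose' (b' + 1)
    have c6 := two_choose' b'
    have c7 := R3h.two_choose' d
    have c8 := R3h.two_choose' (b' + t)
    have c9 := R3h.two_choose' (d - (m + 1))
    rw [c0] at h1 h2 h3
    constructor
    · have hd' : d = b' + t + m := by omega
      subst hd'
      zify at h1 h2 c2 c4 c7 c8 ⊢
      linear_combination 2 * h1 - 2 * h2 - c2 + c4 + c7 - c8
    · rcases Nat.eq_zero_or_pos (b' + t) with h0 | h0
      · omega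
      · obtain ⟨e, he⟩ : ∃ e, b' + t = e + 1 := ⟨b' + t - 1, by omega⟩
        have e6 : d - (m + 1) = e := by omega
        rw [e6] at h3 c9 ⊢
        rw [he] at h2 c8 ⊢
        have h4 : 2 * (Mfin e 0 b').card + 2 * t = 2 * (Mfin (e + 1) 0 (b' + 1)).card := by
          zify at h2 h3 c4 c6 c8 c9 he ⊢
          linear_combination 2 * h3 - 2 * h2 - c6 + c4 + c9 - c8 + 2 * he
        omega

/-- Exact ranks near the critical degree. -/
theorem rankE (k₀ m : ℕ) (hk₀ : 0 < k₀) (hkm : k₀ ≤ m) (ι : Type) [Fintype ι] (w : ι → ℕ)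
    (d a b s₀ t : ℕ) (hb : m < b)
    (hcase : (s₀ = 1 ∧ m < a ∧ a + b + t = d) ∨ (s₀ = 0 ∧ a = 0 ∧ b + t = d + 1))
    (ht : ff m ≤ t)
    (hT : (∑ i, if w i < k₀ then w i * (w i + 1) else 0) + 2 * Alg m w + 2 * t ≤
      2 * (Tm d a b m).card)
    (hN1 : 2 * (Mfin d a b).card < 2 * Aw w + k₀ * (k₀ + 1))
    (hN2 : 2 * Aw w < 2 * (Mfin d a b).card + k₀ * (k₀ + 1))
    (hfr : m * (m + 1) * (m + 2) + k₀ * (k₀ + 1) ≤ Nat.card {i // w i = k₀} * (k₀ * (k₀ + 1)))
    (hIH : ∀ S : Finset ι, (∀ i, m < w i → i ∈ S) →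
      Aw (fun i : {i // i ∈ S} => w i) ≤ (Tm d a b m).card →
      (Tm d a b (m + 1)).card ≤ Aw (fun i : {i // i ∈ S} => w i) →
        RkS (PF ℚ (fun i : {i // i ∈ S} => w i)) (↑(Tm d a b m) : Set (ℕ × ℕ))
          (Aw (fun i : {i // i ∈ S} => w i)) ∧
        RkS (PF ℚ (fun i : {i // i ∈ S} => w i)) (↑(Tm d a b (m + 1)) : Set (ℕ × ℕ))
          (Tm d a b (m + 1)).card) :
    RkS (PF ℚ w) (↑(Mfin d a b) : Set (ℕ × ℕ)) (min (Mfin d a b).card (Aw w)) := by
  classical
  have hm : 0 < m := by omega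
  obtain ⟨q, hq⟩ : ∃ q, q = k₀ * (k₀ + 1) := ⟨_, rfl⟩
  have hqm : q ≤ m * (m + 1) := by
    rw [hq]
    exact Nat.mul_le_mul hkm (by omega)
  have hq0 : 0 < q := by
    rw [hq]
    positivity
  obtain ⟨c₀, hc₀⟩ : ∃ c₀, c₀ = (k₀ + 1).choose 2 := ⟨_, rfl⟩
  have hc₀2 : 2 * c₀ = q := by rw [hc₀, hq]; exact two_choose' k₀
  obtain ⟨c, hc⟩ : ∃ c, c = (m + 1).choose 2 := ⟨_, rfl⟩
  have hc2 : 2 * c = m * (m + 1) := by rw [hc]; exact two_choose' m
  have hc0 : 0 < c := by
    rw [hc]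
    exact Nat.choose_pos (by omega)
  rw [← hq] at hN1 hN2 hfr
  obtain ⟨hr1, hr2⟩ := card_rel hb (le_trans (by unfold ff; omega) ht) hcase
  obtain ⟨TT, hTT⟩ : ∃ TT, TT = (Tm d a b m).card := ⟨_, rfl⟩
  obtain ⟨MM, hMM⟩ : ∃ MM, MM = (Mfin d a b).card := ⟨_, rfl⟩
  rw [← hTT] at hT hr1 hr2
  rw [← hMM] at hN1 hN2 hr1 ⊢
  unfold ff at ht
  have hmm : m * (m + 1) = m * m + m := by ring
  have hm2 : m ≤ m * m := Nat.le_mul_of_pos_left m hm
  -- the reserved points
  have hcard : Nat.card {i // w i = k₀} = (Finset.univ.filter fun i => w i = k₀).card := by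
    rw [Nat.card_eq_fintype_card, Fintype.card_subtype]
  rw [hcard] at hfr
  obtain ⟨e, he1, he2, he3⟩ := num_div hq0 hfr
  obtain ⟨E, hE, hEc⟩ := Finset.exists_subset_card_eq he3
  have hEw : ∀ i ∈ E, w i = k₀ := fun i hi => (Finset.mem_filter.1 (hE hi)).2
  obtain ⟨T, hTd⟩ : ∃ T, T = Finset.univ.filter fun i => w i < k₀ ∨ m < w i := ⟨_, rfl⟩
  obtain ⟨B, hB⟩ : ∃ B, B = (Finset.univ.filter fun i => k₀ ≤ w i ∧ w i ≤ m) \ E := ⟨_, rfl⟩
  have hTmem : ∀ i, i ∈ T ↔ w i < k₀ ∨ m < w i := fun i => by rw [hTd]; simp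
  have hBmem : ∀ i, i ∈ B ↔ (k₀ ≤ w i ∧ w i ≤ m) ∧ i ∉ E := fun i => by rw [hB]; simp
  obtain ⟨f, hf⟩ : ∃ f : ι → ℕ, f = fun i => (w i + 1).choose 2 := ⟨_, rfl⟩
  have hfa : ∀ i, f i = (w i + 1).choose 2 := fun i => by rw [hf]
  have hf2 : ∀ i, 2 * f i = w i * (w i + 1) := fun i => by rw [hfa]; exact two_choose' _
  -- sums
  have hTsum : 2 * ∑ i ∈ T, f i ≤ (∑ i, if w i < k₀ then w i * (w i + 1) else 0) +
      2 * Alg m w := by
    unfold Alg
    rw [hTd, Finset.mul_sum, Finset.sum_filter, Finset.mul_sum, ← Finset.sum_add_distrib]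
    refine Finset.sum_le_sum fun i _ => ?_
    rcases Nat.lt_or_ge (w i) k₀ with h | h
    · rw [if_pos (Or.inl h), if_pos h, hf2]
      omega
    · rcases Nat.lt_or_ge m (w i) with h' | h'
      · rw [if_pos (Or.inr h'), if_neg (by omega), if_neg (by omega), hfa]
        omega
      · rw [if_neg (by omega)]
        exact Nat.zero_le _
  have hAll : ∑ i ∈ T ∪ B, f i + ∑ i ∈ E, f i = Aw w := by
    have h1 : Disjoint (T ∪ B) E := by
      rw [Finset.disjoint_left]
      intro i hi hi'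
      rcases Finset.mem_union.1 hi with h | h
      · rw [hTmem] at h
        have := hEw i hi'
        omega
      · exact ((hBmem i).1 h).2 hi'
    rw [← Finset.sum_union h1]
    have h4 : T ∪ B ∪ E = Finset.univ := by
      rw [Finset.eq_univ_iff_forall]
      intro i
      rw [Finset.mem_union, Finset.mem_union, hTmem, hBmem]
      by_cases h : i ∈ E
      · tauto
      · rcases Nat.lt_or_ge (w i) k₀ with h' | h'
        · tauto
        · rcases Nat.lt_or_ge m (w i) with h'' | h''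
          · tauto
          · tauto
    rw [h4]
    unfold Aw
    exact Finset.sum_congr rfl fun i _ => hfa i
  have hEsum : 2 * ∑ i ∈ E, f i = e * q := by
    rw [Finset.sum_congr rfl (g := fun _ => c₀) (fun i hi => by rw [hfa, hEw i hi, hc₀]),
      Finset.sum_const, smul_eq_mul, hEc, ← hc₀2]
    ring
  obtain ⟨lo, hlo⟩ : ∃ lo, TT = lo + t := ⟨TT - t, by omega⟩
  have hmt0 : m * (2 * (m * m) + 3 * m + 2) ≤ m * t := Nat.mul_le_mul_left _ ht
  have hmt1 : m * (2 * (m * m) + 3 * m + 2) = 2 * (m * m * m) + 3 * (m * m) + 2 * m := by ring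
  have hmt2 : m * (m + 1) * (m + 2) = m * m * m + 3 * (m * m) + 2 * m := by ring
  have hmt3 : 2 * m * t = 2 * (m * t) := by ring
  have hmt4 : m * m ≤ m * m * m := Nat.le_mul_of_pos_right _ hm
  obtain ⟨S, hS1, hS2, hS3, hS4, hS5⟩ := pick f T B c lo (Fintype.card ι + s₀) hc0
    (fun i hi => by
      rw [hfa, hc]
      exact Nat.choose_le_choose 2 (by
        have := ((hBmem i).1 hi).1.2
        omega)) (by omega) (by
      have : 0 ≤ s₀ * m * (m + 1) := Nat.zero_le _
      omega)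
  obtain ⟨A, hA⟩ : ∃ A, A = Aw (fun i : {i // i ∈ S} => w i) := ⟨_, rfl⟩
  have hAS : A = ∑ i ∈ S, f i := by
    rw [hA]
    unfold Aw
    rw [Finset.sum_coe_sort S fun i => (w i + 1).choose 2]
    exact Finset.sum_congr rfl fun i _ => (hfa i).symm
  rw [← hAS] at hS3 hS4
  obtain ⟨A₂, hA₂⟩ : ∃ A₂, A₂ = Aw (fun i : {i // i ∉ S} => w i) := ⟨_, rfl⟩
  have hsplit := Aw_split w S
  rw [← hA, ← hA₂] at hsplit
  obtain ⟨X, hX⟩ : ∃ X, X + A = TT := ⟨TT - A, by omega⟩
  obtain ⟨N₀, hN₀⟩ : ∃ N₀, MM = A + N₀ := ⟨MM - A, by omega⟩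
  have hmin : min MM (Aw w) = A + min N₀ A₂ := by omega
  obtain ⟨hI1, hI2⟩ := hIH S (fun i hi => hS1 ((hTmem i).2 (Or.inr hi)))
    (by rw [← hA, ← hTT]; omega) (by rw [← hA]; omega)
  rw [← hA] at hI1
  rw [hmin]
  refine place3 w S d m a b s₀ t A X hm hb hcase hA hI1 hI2 (by rw [hX, hTT]) (by omega)
    (by omega) ?_ _ ?_
  · have e1 : (m + 1) * (2 * m + m * m + 2) = m * m * m + 3 * (m * m) + 4 * m + 2 := by ring
    omega
  · intro κ t' j h1 h2 h4
    have hsz : sz (s₀ + 2 * κ) m t' j = 2 * N₀ := by omega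
    rw [hA₂]
    refine W608.t_x ℚ k₀ m hk₀ hkm {i // i ∉ S} (fun i => w i) (fun i => ?_)
      _ N₀ (s₀ + 2 * κ) m t' j rfl (by omega) ⟨h1, h2, ?_⟩ hsz ?_ ?_ ?_ ?_ ?_
    · have h5 := i.2
      refine ⟨?_, ?_⟩
      · by_contra h6
        exact h5 (hS1 ((hTmem _).2 (Or.inl (not_le.1 h6))))
      · by_contra h6
        exact h5 (hS1 ((hTmem _).2 (Or.inr (not_le.1 h6))))
    · by_contra hcon
      obtain ⟨s', hs'⟩ : ∃ s', s' = s₀ + 2 * κ := ⟨_, rfl⟩
      rw [← hs'] at h1 h4 hcon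
      unfold sz at h4
      have g1 : (m + 1) * (t' + 1) ≤ (m + 1) * s' := Nat.mul_le_mul_left _ h1
      have g2 : s' * (m * (m + 1)) ≤ m * (m * (m + 1)) := Nat.mul_le_mul_right _ (by omega)
      have g3 : (m + 1) * s' ≤ (m + 1) * m := Nat.mul_le_mul_left _ (by omega)
      have g4 : s' * m * (m + 1) = s' * (m * (m + 1)) := by ring
      have g5 : 2 * (m + 1) * t' = 2 * ((m + 1) * t') := by ring
      have g6 : (m + 1) * (t' + 1) = (m + 1) * t' + (m + 1) := by ring
      have g7 : m * (m * (m + 1)) = m * m * m + m * m := by ring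
      have g8 : (m + 1) * m = m * m + m := by ring
      have g9 : 0 ≤ s₀ * m * (m + 1) := Nat.zero_le _
      omega
    · rw [← hsz]
      unfold sz
      rw [mul_assoc (s₀ + 2 * κ) m (m + 1), add_assoc]
      exact Nat.le_add_right _ _
    · have h6 : Fintype.card {i // i ∉ S} = Fintype.card ι - S.card := by
        rw [Fintype.card_subtype_compl, Fintype.card_coe]
      have h7 : S.card ≤ Fintype.card ι := Finset.card_le_univ S
      rw [h6]
      omega
    · rw [← hA₂, ← hq]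
      omega
    · rw [← hA₂, ← hq]
      omega
    · rw [← hq]
      refine le_trans he1 (Nat.mul_le_mul_right q ?_)
      rw [← hEc, ← Fintype.card_coe, ← Nat.card_eq_fintype_card]
      refine Nat.card_le_card_of_injective (fun i => ⟨⟨i.1, ?_⟩, hEw i.1 i.2⟩) ?_
      · intro h8
        rcases Finset.mem_union.1 (hS2 h8) with h | h
        · rw [hTmem] at h
          have := hEw i.1 i.2
          omega
        · exact ((hBmem _).1 h).2 i.2
      · intro i j hij
        have h8 := congrArg (fun t => (t.1.1 : ι)) hij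
        exact Subtype.ext h8

end Pool.Agent.W611
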