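import Mathlib
import Pool.Agent.W611.RankE
import Pool.Agent.W611.Rank2

set_option autoImplicit false

/-!
# The condition on the large multiplicities
-/

namespace Pool.Agent.W611

open Polynomial Pool.Agent.H932R2 Pool.Agent.H932R3 Pool.Agent.H932R7 Pool.Agent.W608

/-- The number of multiplicities larger than `m`. -/
def Nlg {ι : Type} [Fintype ι] (m : ℕ) (v : ι → ℕ) : ℕ := ∑ a, if v a ≤ m then 0 else 1

/-- The condition. -/
structure Cnd (m d : ℕ) {ι : Type} [Fintype ι] (v : ι → ℕ) : Prop where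
  le : ff m ≤ d
  one : ∀ i, m < v i → v i + ff m ≤ d
  two : ∀ i j, i ≠ j → m < v i → m < v j → v i + v j + ff m ≤ d
  sum : Nlg m v ≤ 3 ∨ Slg m v + 2 * ff m + 2 * m + 1 ≤ 2 * d

/-- The two largest multiplicities. -/
structure Two (m : ℕ) {ι : Type} (v : ι → ℕ) (a0 b0 : ι) : Prop where
  ne : a0 ≠ b0
  hb : m < v b0
  ha : m < v a0 ∨ v a0 = 0
  hab : v a0 ≤ v b0
  hmax : ∀ i, i ≠ b0 → m < v i → v i ≤ v a0

theorem Cnd.add {m d : ℕ} {ι : Type} [Fintype ι] {v : ι → ℕ} (h : Cnd m d v) (x k : ℕ)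
    (hk : k ≤ m) : Cnd m d (Sum.elim v (fun _ : Fin x => k)) := by
  obtain ⟨h1, h2, h3, h4⟩ := h
  refine ⟨h1, ?_, ?_, ?_⟩
  · rintro (i | i) hi
    · exact h2 i hi
    · simp only [Sum.elim_inr] at hi
      omega
  · rintro (i | i) (j | j) hij hi hj
    · exact h3 i j (fun h => hij (congrArg _ h)) hi hj
    · simp only [Sum.elim_inr] at hj
      omega
    · simp only [Sum.elim_inr] at hi
      omega
    · simp only [Sum.elim_inr] at hi
      omega
  · have e1 : Nlg m (Sum.elim v (fun _ : Fin x => k)) = Nlg m v := by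
      unfold Nlg
      rw [Fintype.sum_sum_type]
      have h1 : ∑ b : Fin x, (if Sum.elim v (fun _ : Fin x => k) (Sum.inr b) ≤ m then 0 else
          1) = 0 := Finset.sum_eq_zero fun b _ => if_pos hk
      exact Nat.add_eq_left.2 h1
    have e2 : Slg m (Sum.elim v (fun _ : Fin x => k)) = Slg m v := by
      unfold Slg
      rw [Fintype.sum_sum_type]
      have h1 : ∑ b : Fin x, (if Sum.elim v (fun _ : Fin x => k) (Sum.inr b) ≤ m then 0 else
          Sum.elim v (fun _ : Fin x => k) (Sum.inr b)) = 0 :=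
        Finset.sum_eq_zero fun b _ => if_pos hk
      exact Nat.add_eq_left.2 h1
    rw [e1, e2]
    exact h4

theorem Cnd.sub {m d : ℕ} {ι : Type} [Fintype ι] {v : ι → ℕ} (h : Cnd m d v) (S : Finset ι)
    (hS : ∀ i, m < v i → i ∈ S) : Cnd m d (fun i : {i // i ∈ S} => v i) := by
  obtain ⟨h1, h2, h3, h4⟩ := h
  refine ⟨h1, fun i hi => h2 i hi, fun i j hij hi hj => h3 i j (fun h => hij (Subtype.ext h)) hi hj,
    ?_⟩
  have e1 : Nlg m (fun i : {i // i ∈ S} => v i) = Nlg m v := by
    unfold Nlg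
    rw [Finset.sum_coe_sort S fun a => if v a ≤ m then 0 else 1]
    refine Finset.sum_subset (Finset.subset_univ _) fun a _ ha => ?_
    rw [if_pos]
    by_contra h
    exact ha (hS a (by omega))
  have e2 : Slg m (fun i : {i // i ∈ S} => v i) = Slg m v := by
    unfold Slg
    rw [Finset.sum_coe_sort S fun a => if v a ≤ m then 0 else v a]
    refine Finset.sum_subset (Finset.subset_univ _) fun a _ ha => ?_
    rw [if_pos]
    by_contra h
    exact ha (hS a (by omega))
  rw [e1, e2]
  exact h4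

/-- The choice of the two points. -/
theorem exists_two {m : ℕ} {ι : Type} [Fintype ι] (v : ι → ℕ) (h : ∃ i, m < v i) :
    ∃ a0 b0 : ι ⊕ Fin 1, Two m (Sum.elim v (fun _ : Fin 1 => 0)) a0 b0 := by
  classical
  obtain ⟨i0, hi0⟩ := h
  obtain ⟨b, -, hb⟩ := Finset.exists_max_image Finset.univ v ⟨i0, Finset.mem_univ _⟩
  have hbm : m < v b := lt_of_lt_of_le hi0 (hb i0 (Finset.mem_univ _))
  by_cases h : ∃ i, i ≠ b ∧ m < v i
  · obtain ⟨i1, hi1⟩ := h
    obtain ⟨a, ha, ha'⟩ := Finset.exists_max_image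
      (Finset.univ.filter fun i => i ≠ b ∧ m < v i) v
      ⟨i1, by rw [Finset.mem_filter]; exact ⟨Finset.mem_univ _, hi1⟩⟩
    rw [Finset.mem_filter] at ha
    refine ⟨Sum.inl a, Sum.inl b, fun h => ha.2.1 (Sum.inl_injective h), hbm, Or.inl ha.2.2,
      hb a (Finset.mem_univ _), ?_⟩
    rintro (i | i) hib hi
    · exact ha' i (by
        rw [Finset.mem_filter]
        exact ⟨Finset.mem_univ _, fun h => hib (congrArg _ h), hi⟩)
    · simp only [Sum.elim_inr] at hi
      omega
  · push Not at h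
    refine ⟨Sum.inr 0, Sum.inl b, fun h => by simp at h, hbm, Or.inr rfl, Nat.zero_le _, ?_⟩
    rintro (i | i) hib hi
    · have := h i fun h => hib (congrArg _ h)
      simp only [Sum.elim_inl] at hi
      omega
    · simp only [Sum.elim_inr] at hi
      omega

/-- Splitting a sum. -/
theorem sum_two {ι : Type} [Fintype ι] [DecidableEq ι] {a0 b0 : ι} (h : a0 ≠ b0) (g : ι → ℕ) :
    ∑ i, g i = g a0 + g b0 + ∑ i ∈ Finset.univ.filter (fun i => i ≠ a0 ∧ i ≠ b0), g i := by
  have h1 := Finset.sum_filter_add_sum_filter_not Finset.univ (fun i => i ≠ a0 ∧ i ≠ b0) g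
  have h2 : Finset.univ.filter (fun i => ¬ (i ≠ a0 ∧ i ≠ b0)) = {a0, b0} := by
    ext i
    simp only [Finset.mem_filter, Finset.mem_univ, true_and, Finset.mem_insert,
      Finset.mem_singleton]
    tauto
  rw [h2, Finset.sum_pair h] at h1
  omega

/-- The numerical condition for one point. -/
theorem numT0 {m b t : ℕ} (hm : 0 < m) (hb : m < b) (ht : ff m ≤ t) :
    ((m + 1) * (m + 1) + 2) * ((m + 1) * (m + 1) + 3) + 2 * t + (b - m) * (b - m + 1) ≤
      (b - m + t) * (b - m + t + 1) := by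
  obtain ⟨x, hx⟩ : ∃ x, b = m + x + 1 := ⟨b - m - 1, by omega⟩
  have e : b - m = x + 1 := by omega
  rw [e]
  unfold ff at ht
  obtain ⟨y, rfl⟩ := Nat.exists_eq_add_of_le ht
  obtain ⟨n, rfl⟩ : ∃ n, m = n + 1 := ⟨m - 1, by omega⟩
  have : (x + 1 + (2 * ((n + 1) * (n + 1)) + 3 * (n + 1) + 2 + y)) *
      (x + 1 + (2 * ((n + 1) * (n + 1)) + 3 * (n + 1) + 2 + y) + 1) =
      ((n + 1 + 1) * (n + 1 + 1) + 2) * ((n + 1 + 1) * (n + 1 + 1) + 3) +
        2 * (2 * ((n + 1) * (n + 1)) + 3 * (n + 1) + 2 + y) + (x + 1) * (x + 1 + 1) +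
        (3 * (n * n * n * n) + 4 * (n * n * x) + 4 * (n * n * y) + 20 * (n * n * n) +
          14 * (n * x) + 14 * (n * y) + 50 * (n * n) + 2 * (x * y) + y * y + 53 * n + 14 * x +
          15 * y + 14) := by ring
  omega

/-- The numerical condition for three points. -/
theorem numT1 {m a b c t : ℕ} (hm : 0 < m) (hc : 0 < c) (ha : c ≤ a) (hb : c ≤ b)
    (ht : ff m ≤ t) :
    ((m + 1) * (m + 1) + 2) * ((m + 1) * (m + 1) + 3) + (c + m) * (c + m + 1) + 2 * t +
        a * (a + 1) + b * (b + 1) ≤ (a + b + m + t + 1) * (a + b + m + t + 2) := by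
  unfold ff at ht
  obtain ⟨y, rfl⟩ := Nat.exists_eq_add_of_le ht
  obtain ⟨n, rfl⟩ : ∃ n, m = n + 1 := ⟨m - 1, by omega⟩
  obtain ⟨z, rfl⟩ : ∃ z, c = z + 1 := ⟨c - 1, by omega⟩
  obtain ⟨p, rfl⟩ := Nat.exists_eq_add_of_le ha
  obtain ⟨q, rfl⟩ := Nat.exists_eq_add_of_le hb
  have : (z + 1 + p + (z + 1 + q) + (n + 1) + (2 * ((n + 1) * (n + 1)) + 3 * (n + 1) + 2 + y) +
      1) * (z + 1 + p + (z + 1 + q) + (n + 1) +
        (2 * ((n + 1) * (n + 1)) + 3 * (n + 1) + 2 + y) + 2) =
      ((n + 1 + 1) * (n + 1 + 1) + 2) * ((n + 1 + 1) * (n + 1 + 1) + 3) +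
        (z + 1 + (n + 1)) * (z + 1 + (n + 1) + 1) +
        2 * (2 * ((n + 1) * (n + 1)) + 3 * (n + 1) + 2 + y) +
        (z + 1 + p) * (z + 1 + p + 1) + (z + 1 + q) * (z + 1 + q + 1) +
        (3 * (n * n * n * n) + 4 * (n * n * p) + 4 * (n * n * q) + 4 * (n * n * y) +
          8 * (n * n * z) + 24 * (n * n * n) + 16 * (n * p) + 16 * (n * q) + 16 * (n * y) +
          30 * (n * z) + 76 * (n * n) + 2 * (p * q) + 2 * (p * y) + 2 * (p * z) + 2 * (q * y) +
          2 * (q * z) + 4 * (y * z) + y * y + z * z + 113 * n + 20 * p + 20 * q + 21 * y +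
          35 * z + 66) := by ring
  omega

/-- The numerical condition for more points. -/
theorem numT2 {m a b s t : ℕ} (hm : 0 < m) (ha : 0 < a) (hab : a ≤ b)
    (hs : s ≤ a + b + 2 * t) (ht : ff m ≤ t) :
    ((m + 1) * (m + 1) + 2) * ((m + 1) * (m + 1) + 3) + (a + m + 1) * s + 2 * t +
        a * (a + 1) + b * (b + 1) ≤ (a + b + m + t + 1) * (a + b + m + t + 2) := by
  have hs' := Nat.mul_le_mul_left (a + m + 1) hs
  unfold ff at ht
  obtain ⟨y, rfl⟩ := Nat.exists_eq_add_of_le ht
  obtain ⟨n, rfl⟩ : ∃ n, m = n + 1 := ⟨m - 1, by omega⟩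
  obtain ⟨x, rfl⟩ : ∃ x, a = x + 1 := ⟨a - 1, by omega⟩
  obtain ⟨p, rfl⟩ := Nat.exists_eq_add_of_le hab
  have : (x + 1 + (x + 1 + p) + (n + 1) + (2 * ((n + 1) * (n + 1)) + 3 * (n + 1) + 2 + y) +
      1) * (x + 1 + (x + 1 + p) + (n + 1) +
        (2 * ((n + 1) * (n + 1)) + 3 * (n + 1) + 2 + y) + 2) =
      ((n + 1 + 1) * (n + 1 + 1) + 2) * ((n + 1 + 1) * (n + 1 + 1) + 3) +
        (x + 1 + (n + 1) + 1) * (x + 1 + (x + 1 + p) +
          2 * (2 * ((n + 1) * (n + 1)) + 3 * (n + 1) + 2 + y)) +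
        2 * (2 * ((n + 1) * (n + 1)) + 3 * (n + 1) + 2 + y) +
        (x + 1) * (x + 1 + 1) + (x + 1 + p) * (x + 1 + p + 1) +
        (3 * (n * n * n * n) + 4 * (n * n * p) + 4 * (n * n * x) + 4 * (n * n * y) +
          20 * (n * n * n) + 15 * (n * p) + 16 * (n * x) + 14 * (n * y) + 51 * (n * n) + p * x +
          2 * (p * y) + 2 * (x * y) + y * y + 60 * n + 17 * p + 18 * x + 15 * y + 24) := by ring
  omega

theorem four_le {ι : Type} [Fintype ι] {a b c e : ι} (h1 : a ≠ b) (h2 : a ≠ c) (h3 : a ≠ e)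
    (h4 : b ≠ c) (h5 : b ≠ e) (h6 : c ≠ e) (g : ι → ℕ) : g a + g b + g c + g e ≤ ∑ i, g i := by
  classical
  have h := Finset.sum_le_sum_of_subset (f := g) (Finset.subset_univ ({a, b, c, e} : Finset ι))
  rw [Finset.sum_insert (by simp [h1, h2, h3]), Finset.sum_insert (by simp [h4, h5]),
    Finset.sum_insert (by simp [h6]), Finset.sum_singleton] at h
  omega

theorem four_Nlg {m : ℕ} {ι : Type} [Fintype ι] (v : ι → ℕ) {a b c e : ι} (h1 : a ≠ b)
    (h2 : a ≠ c) (h3 : a ≠ e) (h4 : b ≠ c) (h5 : b ≠ e) (h6 : c ≠ e) (ha : m < v a)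
    (hb : m < v b) (hc : m < v c) (he : m < v e) :
    4 ≤ Nlg m v ∧ v a + v b + v c + v e ≤ Slg m v := by
  have g1 := four_le h1 h2 h3 h4 h5 h6 fun i => if v i ≤ m then 0 else 1
  have g2 := four_le h1 h2 h3 h4 h5 h6 fun i => if v i ≤ m then 0 else v i
  simp only [if_neg (not_le.2 ha), if_neg (not_le.2 hb), if_neg (not_le.2 hc),
    if_neg (not_le.2 he)] at g1 g2
  exact ⟨g1, g2⟩

/-- The other points. -/
def rest {ι : Type} [DecidableEq ι] (v : ι → ℕ) (a0 b0 : ι) : ι → ℕ :=
  Function.update (Function.update v a0 0) b0 0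

theorem rest_a {ι : Type} [DecidableEq ι] (v : ι → ℕ) {a0 b0 : ι} (h : a0 ≠ b0) :
    rest v a0 b0 a0 = 0 := by
  unfold rest
  rw [Function.update_of_ne h, Function.update_self]

theorem rest_b {ι : Type} [DecidableEq ι] (v : ι → ℕ) (a0 b0 : ι) : rest v a0 b0 b0 = 0 := by
  unfold rest
  rw [Function.update_self]

theorem rest_o {ι : Type} [DecidableEq ι] (v : ι → ℕ) {a0 b0 i : ι} (h1 : i ≠ a0)
    (h2 : i ≠ b0) : rest v a0 b0 i = v i := by
  unfold rest
  rw [Function.update_of_ne h2, Function.update_of_ne h1]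

theorem sum_rest {ι : Type} [Fintype ι] [DecidableEq ι] (v : ι → ℕ) {a0 b0 : ι} (h : a0 ≠ b0)
    (g : ℕ → ℕ) (hg : g 0 = 0) : ∑ i, g (v i) = g (v a0) + g (v b0) + ∑ i, g (rest v a0 b0 i) := by
  rw [sum_two h, sum_two h (fun i => g (rest v a0 b0 i)), rest_a v h, rest_b, hg, zero_add,
    zero_add]
  congr 1
  refine Finset.sum_congr rfl fun i hi => ?_
  rw [Finset.mem_filter] at hi
  rw [rest_o v hi.2.1 hi.2.2]

/-- The main numerical inequality. -/
theorem star {m d : ℕ} (hm : 0 < m) {ι : Type} [Fintype ι] [DecidableEq ι] {v : ι → ℕ}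
    {a0 b0 : ι} (hT : Two m v a0 b0) (hC : Cnd m d v) :
    ∃ s₀ t, ((s₀ = 1 ∧ m < v a0 ∧ v a0 + v b0 + t = d) ∨
      (s₀ = 0 ∧ v a0 = 0 ∧ v b0 + t = d + 1)) ∧ ff m ≤ t ∧
      ((m + 1) * (m + 1) + 2) * ((m + 1) * (m + 1) + 3) + 2 * Alg m (rest v a0 b0) + 2 * t ≤
        2 * (Tm d (v a0) (v b0) m).card := by
  obtain ⟨hne, hb, ha, hab, hmax⟩ := hT
  obtain ⟨h1, h2, h3, h4⟩ := hC
  rcases ha with ha | ha
  · have h5 := h3 a0 b0 hne ha hb
    obtain ⟨t, ht⟩ : ∃ t, v a0 + v b0 + t = d := ⟨d - (v a0 + v b0), by omega⟩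
    refine ⟨1, t, Or.inl ⟨rfl, ha, ht⟩, by omega, ?_⟩
    obtain ⟨a, ha'⟩ : ∃ a, v a0 = a + m := ⟨v a0 - m, by omega⟩
    obtain ⟨b, hb'⟩ : ∃ b, v b0 = b + m := ⟨v b0 - m, by omega⟩
    have hcard : 2 * (Tm d (v a0) (v b0) m).card + a * (a + 1) + b * (b + 1) =
        (a + b + m + t + 1) * (a + b + m + t + 2) := by
      rw [card_Tm (by omega) (by omega)]
      have e1 : v a0 - m = a := by omega
      have e2 : v b0 - m = b := by omega
      have e3 : d - m = a + b + m + t := by omega
      rw [e1, e2, e3]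
      have g1 := card_Mfin (d := a + b + m + t) (a := a) (b := b) (by omega)
      have g2 := two_choose' a
      have g3 := two_choose' b
      have g4 := R3h.two_choose' (a + b + m + t)
      omega
    by_cases h6 : Nlg m v ≤ 3
    · by_cases h7 : ∃ i, m < rest v a0 b0 i
      · obtain ⟨i, hi⟩ := h7
        have hib : i ≠ b0 := by
          rintro rfl
          rw [rest_b] at hi
          omega
        have hia : i ≠ a0 := by
          rintro rfl
          rw [rest_a v hne] at hi
          omega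
        rw [rest_o v hia hib] at hi
        have hle := hmax i hib hi
        have hAlg : Alg m (rest v a0 b0) = (v i + 1).choose 2 := by
          unfold Alg
          rw [Finset.sum_eq_single i]
          · rw [rest_o v hia hib, if_neg (by omega)]
          · intro j _ hj
            rw [if_pos]
            by_contra hcon
            have hjb : j ≠ b0 := by
              rintro rfl
              rw [rest_b] at hcon
              omega
            have hja : j ≠ a0 := by
              rintro rfl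
              rw [rest_a v hne] at hcon
              omega
            rw [rest_o v hja hjb] at hcon
            have := (four_Nlg v hne hia.symm hja.symm hib.symm hjb.symm hj.symm ha hb hi
              (by omega)).1
            omega
          · intro hcon
            exact absurd (Finset.mem_univ i) hcon
        obtain ⟨c, hc⟩ : ∃ c, v i = c + m := ⟨v i - m, by omega⟩
        have h8 := numT1 (m := m) (a := a) (b := b) (c := c) (t := t) hm (by omega) (by omega)
          (by omega) (by omega)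
        have h9 := two_choose' (v i)
        rw [hc] at h9
        rw [hAlg, hc]
        omega
      · push Not at h7
        have hAlg : Alg m (rest v a0 b0) = 0 := by
          unfold Alg
          exact Finset.sum_eq_zero fun i _ => if_pos (h7 i)
        have h8 := numT1 (m := m) (a := a) (b := b) (c := 1) (t := t) hm (by omega) (by omega)
          (by omega) (by omega)
        rw [hAlg]
        omega
    · have h7 : Slg m v + 2 * ff m + 2 * m + 1 ≤ 2 * d := by
        rcases h4 with h4 | h4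
        · exact absurd h4 h6
        · exact h4
      have h8 := sum_rest v hne (fun x => if x ≤ m then 0 else x) (by simp)
      simp only [if_neg (not_le.2 ha), if_neg (not_le.2 hb)] at h8
      have h9 : Slg m v = v a0 + v b0 + Slg m (rest v a0 b0) := h8
      have h10 : 2 * Alg m (rest v a0 b0) ≤ (a + m + 1) * Slg m (rest v a0 b0) := by
        unfold Alg Slg
        rw [Finset.mul_sum, Finset.mul_sum]
        refine Finset.sum_le_sum fun i _ => ?_
        split_ifs with hi
        · omega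
        · have hib : i ≠ b0 := by
            rintro rfl
            rw [rest_b] at hi
            omega
          have hia : i ≠ a0 := by
            rintro rfl
            rw [rest_a v hne] at hi
            omega
          rw [rest_o v hia hib] at hi ⊢
          have hle := hmax i hib (by omega)
          rw [two_choose', mul_comm]
          exact Nat.mul_le_mul_right _ (by omega)
      have h11 := numT2 (m := m) (a := a) (b := b) (s := Slg m (rest v a0 b0)) (t := t) hm
        (by omega) (by omega) (by omega) (by omega)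
      omega
  · have h5 := h2 b0 hb
    obtain ⟨t, ht⟩ : ∃ t, v b0 + t = d + 1 := ⟨d + 1 - v b0, by omega⟩
    refine ⟨0, t, Or.inr ⟨rfl, ha, ht⟩, by omega, ?_⟩
    have hAlg : Alg m (rest v a0 b0) = 0 := by
      unfold Alg
      refine Finset.sum_eq_zero fun i _ => if_pos ?_
      by_cases hib : i = b0
      · subst hib
        rw [rest_b]
        omega
      by_cases hia : i = a0
      · subst hia
        rw [rest_a v hne]
        omega
      rw [rest_o v hia hib]
      by_contra hcon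
      have := hmax i hib (by omega)
      omega
    rw [hAlg, ha, card_Tm (by omega) (by omega)]
    have h6 := numT0 (m := m) (b := v b0) (t := t) hm hb (by omega)
    rw [Nat.zero_sub]
    have g1 := card_Mfin (d := d - m) (a := 0) (b := v b0 - m) (by omega)
    have g2 : (0 + 1).choose 2 = 0 := rfl
    have g3 := two_choose' (v b0 - m)
    have g4 := R3h.two_choose' (d - m)
    have e1 : d - m + 1 = v b0 - m + t := by omega
    have e2 : d - m + 2 = v b0 - m + t + 1 := by omega
    rw [e1] at g4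
    rw [e2] at g4 g1
    omega

end Pool.Agent.W611
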