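import Mathlib
import Pool.Agent.W611.Smooth
import Pool.Agent.W611.RankH

set_option autoImplicit false

/-!
# From ranks to expected dimensions and smooth general members
-/

namespace Pool.Agent.W611

section exp

open Polynomial Pool.Agent.H932R2 Pool.Agent.H932R3 Pool.Agent.H932R7 Pool.Agent.W608

/-- Expected dimension, for general points. -/
theorem exp_abs (L : Type) [Field L] [CharZero L] {n : ℕ} (w : Fin n → ℕ) (D : ℕ)
    (hrank : ∀ d, D ≤ d → RkS (PF ℚ w) (Tset d) (min ((d + 2).choose 2) (Aw w))) :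
    ∃ F : MvPolynomial (Fin n × Fin 2) ℚ, F ≠ 0 ∧ ∀ P : Fin n → Fin 2 → L,
      MvPolynomial.aeval (fun ij : Fin n × Fin 2 => P ij.1 ij.2) F ≠ 0 →
        ∀ d : ℕ, (D ≤ d ∨ (D + 2).choose 2 ≤ Aw w) → ExpDim L w P d := by
  classical
  have hex : ∃ d, D ≤ d ∧ Aw w ≤ (d + 2).choose 2 := by
    refine ⟨D + Aw w, by omega, ?_⟩
    have h1 := H932R7.two_choose (D + Aw w)
    nlinarith
  obtain ⟨hfa, hfb⟩ := Nat.find_spec hex
  have hfmin := fun d => Nat.find_min hex (m := d)
  obtain ⟨f, hf⟩ : ∃ f, f = Nat.find hex := ⟨_, rfl⟩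
  rw [← hf] at hfa hfb hfmin
  have hr1 := hrank f hfa
  rw [min_eq_right hfb] at hr1
  obtain ⟨F1, hF1, hF1'⟩ := exp_of_indep (L := L) T_HOP hr1
  obtain ⟨F2, hF2, hF2'⟩ : ∃ F : MvPolynomial (Fin n × Fin 2) ℚ, F ≠ 0 ∧
      ∀ P : Fin n → Fin 2 → L,
      MvPolynomial.aeval (fun ij : Fin n × Fin 2 => P ij.1 ij.2) F ≠ 0 →
        ∀ d : ℕ, (D ≤ d ∨ (D + 2).choose 2 ≤ Aw w) → d < f → ExpDim L w P d := by
    rcases Nat.lt_or_ge D f with h | h
    · have h1 := hrank (f - 1) (by omega)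
      have h2 := hfmin (f - 1) (by omega)
      have h3 : (f - 1 + 2).choose 2 < Aw w := by
        by_contra h4
        exact h2 ⟨by omega, by omega⟩
      rw [min_eq_left h3.le, ← card_Tfin'] at h1
      obtain ⟨F, hF, hF'⟩ := exp_of_full (L := L) T_HOP h1
      exact ⟨F, hF, fun P hP d _ hd => hF' P hP d (by omega)⟩
    · have hDf : f = D := by omega
      by_cases hA : (D + 2).choose 2 ≤ Aw w
      · have h1 := hrank D le_rfl
        rw [min_eq_left hA, ← card_Tfin'] at h1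
        obtain ⟨F, hF, hF'⟩ := exp_of_full (L := L) T_HOP h1
        exact ⟨F, hF, fun P hP d _ hd => hF' P hP d (by omega)⟩
      · exact ⟨1, one_ne_zero, fun P _ d h1 h2 => by omega⟩
  refine ⟨F1 * F2, mul_ne_zero hF1 hF2, fun P hP d hd => ?_⟩
  rw [map_mul] at hP
  rcases Nat.lt_or_ge d f with h | h
  · exact hF2' P (right_ne_zero_of_mul hP) d hd h
  · exact hF1' P (left_ne_zero_of_mul hP) d h

end exp

section smooth

open MvPolynomial Pool.Agent.H248R5 Pool.Agent.H248R6 Pool.Agent.H932R7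

/-- Smooth general members, one hypersurface for all degrees. -/
theorem smooth_abs {K : Type} [Field K] [CharZero K] {n : ℕ} (w : Fin n → ℕ) (D : ℕ)
    (hD : 1 ≤ D)
    (r0 : ∀ d, D - 1 ≤ d → H932R3.RkS (PF ℚ w) (H932R2.Tset d)
      (min ((d + 2).choose 2) (Aw w)))
    (r1 : ∀ d, D - 1 ≤ d → H932R3.RkS (PF ℚ (fun i => w i - 1)) (H932R2.Tset d)
      (min ((d + 2).choose 2) (Aw (fun i => w i - 1))))
    (r2 : ∀ k d, D ≤ d → H932R3.RkS (PF ℚ (Function.update w k (w k + 1))) (H932R2.Tset d)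
      (min ((d + 2).choose 2) (Aw (Function.update w k (w k + 1))))) :
    ∃ F : MvPolynomial (Fin n × Fin 2) ℚ, F ≠ 0 ∧ ∀ P : Fin n → Fin 2 → K,
      aeval (fun ij : Fin n × Fin 2 => P ij.1 ij.2) F ≠ 0 → ∀ d, D ≤ d →
        Module.finrank K ↥(forms w P d) = (d + 2).choose 2 - ∑ i, (w i + 1).choose 2 ∧
        ((∀ i, (∑ j, (w j + 1).choose 2) + w i + 1 ≤ (d + 2).choose 2) →
          GeneralMember (forms w P d) (SmoothMember w P)) := by
  classical
  obtain ⟨A, hA⟩ : ∃ A, A = ∑ i, (w i + 1).choose 2 := ⟨_, rfl⟩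
  have hAw : ∀ v : Fin n → ℕ, Aw v = ∑ i, (v i + 1).choose 2 := fun v => rfl
  -- nonspeciality
  obtain ⟨F0, hF0, hF0'⟩ := exp_abs K w (D - 1) r0
  have key : ∀ d, D ≤ d → (∀ i, A + w i + 1 ≤ (d + 2).choose 2) → 0 < n →
      ∃ F : MvPolynomial (Fin n × Fin 2) ℚ, F ≠ 0 ∧ ∀ P : Fin n → Fin 2 → K,
        aeval (fun ij : Fin n × Fin 2 => P ij.1 ij.2) F ≠ 0 →
          GeneralMember (forms w P d) (SmoothMember w P) := by
    intro d hd hAd hn
    obtain ⟨e, rfl⟩ : ∃ e, d = e + 1 := ⟨d - 1, by omega⟩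
    have s1 : ∀ {L : Type} [Field L] {P : Fin n → Fin 2 → L} (k : Fin n),
        H932R3.ExpDim L (Function.update w k (w k + 1)) P (e + 1) →
        Function.Surjective (ev (Function.update w k (w k + 1)) P (e + 1)) := by
      intro L _ P k h
      refine surj_of_ind ?_
      have h3 : Module.finrank L ↥(forms (Function.update w k (w k + 1)) P (e + 1)) =
        (e + 1 + 2).choose 2 -
          ∑ i, (Function.update w k (w k + 1) i + 1).choose 2 := h
      have h4 := hAd k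
      rw [Aw_up, ← hA] at h3 ⊢
      omega
    have s2 : ∀ {L : Type} [Field L] {P : Fin n → Fin 2 → L},
        H932R3.ExpDim L w P (e + 1) → Function.Surjective (ev w P (e + 1)) := by
      intro L _ P h
      refine surj_of_ind ?_
      have h3 : Module.finrank L ↥(forms w P (e + 1)) =
        (e + 1 + 2).choose 2 - ∑ i, (w i + 1).choose 2 := h
      have h4 := hAd ⟨0, hn⟩
      rw [← hA] at h3 ⊢
      omega
    have s3 : ∀ {L : Type} [Field L] {P : Fin n → Fin 2 → L},
        H932R3.ExpDim L (fun i => w i - 1) P e →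
          Function.Surjective (ev (fun i => w i - 1) P e) := by
      intro L _ P h
      refine surj_of_ind ?_
      have h3 : Module.finrank L ↥(forms (fun i => w i - 1) P e) =
        (e + 2).choose 2 - ∑ i, (w i - 1 + 1).choose 2 := h
      have h4 := hAd ⟨0, hn⟩
      have h5 := Aw_low w
      have h6 : (e + 1 + 2).choose 2 = (e + 2) + (e + 2).choose 2 := by
        rw [show e + 1 + 2 = (e + 2) + 1 from rfl, Nat.choose_succ_succ' (e + 2) 1,
          Nat.choose_one_right]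
      have h7 : ∑ i, (w i - 1 + 1).choose 2 ≤ (e + 2).choose 2 := by
        rcases Nat.lt_or_ge (∑ i, w i) (e + 2) with h8 | h8
        · exact le_trans (choose_le_sum w) (Nat.choose_le_choose 2 h8.le)
        · omega
      omega
    have f1 : ∀ (L : Type) [Field L] [CharZero L] (k : Fin n), ∃ F : MvPolynomial (Fin n × Fin 2) ℚ,
        F ≠ 0 ∧ ∀ P : Fin n → Fin 2 → L,
          aeval (fun ij : Fin n × Fin 2 => P ij.1 ij.2) F ≠ 0 →
            H932R3.ExpDim L (Function.update w k (w k + 1)) P (e + 1) := by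
      intro L _ _ k
      obtain ⟨F, hF, hF'⟩ := exp_abs L (Function.update w k (w k + 1)) D (r2 k)
      exact ⟨F, hF, fun P hP => hF' P hP (e + 1) (Or.inl hd)⟩
    choose G hG hG' using f1 K
    obtain ⟨F, hF, hF'⟩ := open_main (K := K) (n := n) (e := e) (w := w)
      (fun L _ _ P hP => by
        have hne : ∀ F : MvPolynomial (Fin n × Fin 2) ℚ, F ≠ 0 →
            aeval (fun ij : Fin n × Fin 2 => P ij.1 ij.2) F ≠ 0 :=
          fun F hF h0 => hF (hP.eq_zero_of_aeval_eq_zero F h0)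
        refine ⟨fun k => ?_, ?_, ?_⟩
        · obtain ⟨F, hF, hF'⟩ := f1 L k
          exact s1 k (hF' P (hne F hF))
        · obtain ⟨F, hF, hF'⟩ := exp_abs L w (D - 1) r0
          exact s2 (hF' P (hne F hF) (e + 1) (Or.inl (by omega)))
        · obtain ⟨F, hF, hF'⟩ := exp_abs L (fun i => w i - 1) (D - 1) r1
          exact s3 (hF' P (hne F hF) e (Or.inl (by omega))))
      ⟨F0 * ∏ k, G k, mul_ne_zero hF0 (Finset.prod_ne_zero_iff.2 fun k _ => hG k),
        fun P hP => by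
          rw [map_mul, map_prod] at hP
          refine ⟨fun k => s1 k (hG' k P ?_),
            s2 (hF0' P (left_ne_zero_of_mul hP) (e + 1) (Or.inl (by omega)))⟩
          exact Finset.prod_ne_zero_iff.1 (right_ne_zero_of_mul hP) k (Finset.mem_univ k)⟩
    exact ⟨F, hF, fun P hP => (hF' P hP).2⟩
  have key2 : ∀ d : Fin (A + 1), ∃ F : MvPolynomial (Fin n × Fin 2) ℚ, F ≠ 0 ∧
      ∀ P : Fin n → Fin 2 → K, aeval (fun ij : Fin n × Fin 2 => P ij.1 ij.2) F ≠ 0 →
        (D ≤ (d : ℕ) ∧ (∀ i, A + w i + 1 ≤ ((d : ℕ) + 2).choose 2) ∧ 0 < n) →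
          GeneralMember (forms w P d) (SmoothMember w P) := by
    intro d
    by_cases h : D ≤ (d : ℕ) ∧ (∀ i, A + w i + 1 ≤ ((d : ℕ) + 2).choose 2) ∧ 0 < n
    · obtain ⟨F, hF, hF'⟩ := key d h.1 h.2.1 h.2.2
      exact ⟨F, hF, fun P hP _ => hF' P hP⟩
    · exact ⟨1, one_ne_zero, fun P _ h' => absurd h' h⟩
  choose G hG hG' using key2
  refine ⟨F0 * disc ℚ n * ∏ x, G x, mul_ne_zero (mul_ne_zero hF0 (disc_ne ℚ n))
    (Finset.prod_ne_zero_iff.2 fun x _ => hG x), fun P hP d hd => ?_⟩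
  rw [map_mul, map_mul, map_prod] at hP
  have hP0 := left_ne_zero_of_mul (left_ne_zero_of_mul hP)
  have hPd := inj_of_disc' (right_ne_zero_of_mul (left_ne_zero_of_mul hP))
  refine ⟨hF0' P hP0 d (Or.inl (by omega)), fun hAd => ?_⟩
  rcases le_or_gt A ((d + 1).choose 2) with h | h
  · refine general_smooth' hPd (by omega) (hF0' P hP0 (d - 1) (Or.inl (by omega))) ?_
    rw [← hA]
    exact h
  · have hn : 0 < n := by
      rcases Nat.eq_zero_or_pos n with h0 | h0
      · subst h0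
        rw [hA] at h
        simp at h
      · exact h0
    have hdA : d < A + 1 := by
      have h1 : ∀ z : ℕ, z ≤ (z + 1).choose 2 := by
        intro z
        rw [Nat.choose_succ_succ' z 1, Nat.choose_one_right]
        exact Nat.le_add_right _ _
      have := h1 d
      omega
    rw [← hA] at hAd
    exact hG' ⟨d, hdA⟩ P (Finset.prod_ne_zero_iff.1 (right_ne_zero_of_mul hP) ⟨d, hdA⟩
      (Finset.mem_univ _)) ⟨hd, hAd, hn⟩

end smooth

section final

open Pool.Agent.H932R2 Pool.Agent.H932R3 Pool.Agent.H932R7 Pool.Agent.W608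

theorem Cnd.mono_d {m d d' : ℕ} (h : d ≤ d') {ι : Type} [Fintype ι] {v : ι → ℕ}
    (hC : Cnd m d v) : Cnd m d' v := by
  obtain ⟨h1, h2, h3, h4⟩ := hC
  refine ⟨by omega, fun i hi => ?_, fun i j hij hi hj => ?_, ?_⟩
  · have := h2 i hi
    omega
  · have := h3 i j hij hi hj
    omega
  · rcases h4 with h4 | h4
    · exact Or.inl h4
    · right
      omega

/-- Expected dimension, for general points. -/
theorem expH (L : Type) [Field L] [CharZero L] (m : ℕ) (hm : 0 < m) {n : ℕ}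
    (w : Fin n → ℕ) (D : ℕ) (hC : Cnd m D w) :
    ∃ F : MvPolynomial (Fin n × Fin 2) ℚ, F ≠ 0 ∧ ∀ P : Fin n → Fin 2 → L,
      MvPolynomial.aeval (fun ij : Fin n × Fin 2 => P ij.1 ij.2) F ≠ 0 →
        ∀ d : ℕ, (D ≤ d ∨ (D + 2).choose 2 ≤ Aw w) → ExpDim L w P d :=
  exp_abs L w D fun d hd => rankH m hm d (Fin n) w (hC.mono_d hd)

end final

end Pool.Agent.W611
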