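import Mathlib
import Pool.Agent.W611.FinH

set_option autoImplicit false

/-!
# Smooth general members
-/

namespace Pool.Agent.W611

open Pool.Agent.H932R2 Pool.Agent.H932R3 Pool.Agent.H932R7 Pool.Agent.H248R5

theorem Cnd.mono_v {m d : ℕ} {ι : Type} [Fintype ι] {v v' : ι → ℕ} (h : ∀ i, v' i ≤ v i)
    (hC : Cnd m d v) : Cnd m d v' := by
  obtain ⟨h1, h2, h3, h4⟩ := hC
  refine ⟨h1, fun i hi => ?_, fun i j hij hi hj => ?_, ?_⟩
  · have g := h i
    have := h2 i (by omega)
    omega
  · have g := h i
    have g' := h j
    have := h3 i j hij (by omega) (by omega)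
    omega
  · have e1 : Nlg m v' ≤ Nlg m v := by
      unfold Nlg
      refine Finset.sum_le_sum fun i _ => ?_
      have := h i
      split_ifs <;> omega
    have e2 : Slg m v' ≤ Slg m v := by
      unfold Slg
      refine Finset.sum_le_sum fun i _ => ?_
      have := h i
      split_ifs <;> omega
    rcases h4 with h4 | h4
    · exact Or.inl (by omega)
    · right
      omega

/-- Smooth general members. -/
theorem smoothH {K : Type} [Field K] [CharZero K] {n : ℕ} (m : ℕ) (hm : 0 < m)
    (w : Fin n → ℕ) (D : ℕ) (h1 : ff m + 1 ≤ D) (h2 : ∀ i, m ≤ w i → w i + ff m + 1 ≤ D)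
    (h3 : ∀ i j, i ≠ j → m ≤ w i → m ≤ w j → w i + w j + ff m + 1 ≤ D)
    (h4 : (Finset.univ.filter fun i => m ≤ w i).card ≤ 3 ∨
      (∑ i, if m ≤ w i then w i else 0) + 2 * ff m + 2 * m + 3 ≤ 2 * D) :
    ∃ F : MvPolynomial (Fin n × Fin 2) ℚ, F ≠ 0 ∧ ∀ P : Fin n → Fin 2 → K,
      MvPolynomial.aeval (fun ij : Fin n × Fin 2 => P ij.1 ij.2) F ≠ 0 → ∀ d, D ≤ d →
        Module.finrank K ↥(forms w P d) = (d + 2).choose 2 - ∑ i, (w i + 1).choose 2 ∧
        ((∀ i, (∑ j, (w j + 1).choose 2) + w i + 1 ≤ (d + 2).choose 2) →
          GeneralMember (forms w P d) (SmoothMember w P)) := by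
  classical
  have hN : ∀ v : Fin n → ℕ, (∀ i, v i ≤ w i + 1) →
      Nlg m v ≤ (Finset.univ.filter fun i => m ≤ w i).card := by
    intro v hv
    unfold Nlg
    rw [Finset.card_filter]
    refine Finset.sum_le_sum fun i _ => ?_
    have := hv i
    split_ifs <;> omega
  have hC0 : Cnd m (D - 1) w := by
    refine ⟨by omega, fun i hi => ?_, fun i j hij hi hj => ?_, ?_⟩
    · have := h2 i (by omega)
      omega
    · have := h3 i j hij (by omega) (by omega)
      omega
    · have e1 := hN w fun i => Nat.le_succ _
      have e2 : Slg m w ≤ ∑ i, if m ≤ w i then w i else 0 := by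
        unfold Slg
        refine Finset.sum_le_sum fun i _ => ?_
        split_ifs <;> omega
      rcases h4 with h4 | h4
      · exact Or.inl (by omega)
      · right
        omega
  have hC2 : ∀ k, Cnd m D (Function.update w k (w k + 1)) := by
    intro k
    have hle : ∀ i, Function.update w k (w k + 1) i ≤ w i + 1 := by
      intro i
      by_cases hi : i = k
      · subst hi
        rw [Function.update_self]
      · rw [Function.update_of_ne hi]
        omega
    refine ⟨by omega, fun i hi => ?_, fun i j hij hi hj => ?_, ?_⟩
    · have g := hle i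
      have := h2 i (by omega)
      omega
    · have g := hle i
      have g' := hle j
      have := h3 i j hij (by omega) (by omega)
      by_cases hik : i = k
      · subst hik
        rw [Function.update_of_ne hij.symm]
        omega
      · rw [Function.update_of_ne hik]
        omega
    · have e1 := hN _ hle
      have e2 : Slg m (Function.update w k (w k + 1)) ≤ (∑ i, if m ≤ w i then w i else 0) + 1 := by
        unfold Slg
        rw [← Finset.add_sum_erase _ _ (Finset.mem_univ k),
          ← Finset.add_sum_erase _ (fun i => if m ≤ w i then w i else 0) (Finset.mem_univ k),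
          Function.update_self]
        have e3 : ∑ i ∈ Finset.univ.erase k, (if Function.update w k (w k + 1) i ≤ m then 0 else
            Function.update w k (w k + 1) i) ≤
            ∑ i ∈ Finset.univ.erase k, (if m ≤ w i then w i else 0) := by
          refine Finset.sum_le_sum fun i hi => ?_
          rw [Function.update_of_ne (Finset.ne_of_mem_erase hi)]
          split_ifs <;> omega
        have e4 : (if w k + 1 ≤ m then 0 else w k + 1) ≤ (if m ≤ w k then w k else 0) + 1 := by
          split_ifs <;> omega
        omega
      rcases h4 with h4 | h4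
      · exact Or.inl (by omega)
      · right
        omega
  exact smooth_abs w D (by omega)
    (fun d hd => rankH m hm d (Fin n) w (hC0.mono_d hd))
    (fun d hd => rankH m hm d (Fin n) _ ((hC0.mono_v fun i => Nat.sub_le _ _).mono_d hd))
    (fun k d hd => rankH m hm d (Fin n) _ ((hC2 k).mono_d hd))

end Pool.Agent.W611
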